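import Pool.Agent.H53.PPC.AE
import Pool.Agent.H53.PPC.Lim

namespace Pool.Agent.H53.PPC

open Filter Topology Finset MeasureTheory

/-- pair counts, indexed from zero -/
noncomputable def pc (Y : ℕ → ℝ) (N : ℕ) (h : ℝ) : ℕ :=
  (((Finset.range N) ×ˢ (Finset.range N)).filter
    (fun p : ℕ × ℕ => p.1 ≠ p.2 ∧ distInt (Y p.1 - Y p.2) < h)).card

lemma fail (β : ℝ) (j : ℕ) (hdig : digit β j ∈ A j) :
    3 * (S (j + 1) : ℝ) ≤ (pc (fun n => a0 n * β) (S (j + 1)) (1 / (S (j + 1) : ℝ)) : ℝ) := by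
  obtain ⟨he, q, hq1, hqQ, hq⟩ := mem_A.mp hdig
  have hm : (0 : ℝ) < m j := by exact_mod_cast m_pos j
  have hfr := Int.fract_nonneg ((d j : ℝ) * β)
  have hx1 : ((digit β j : ℕ) : ℝ) / m j ≤ Int.fract ((d j : ℝ) * β) := by
    rw [div_le_iff₀ hm, mul_comm (Int.fract _)]
    exact Nat.floor_le (by positivity)
  have hx2 : Int.fract ((d j : ℝ) * β) < (((digit β j : ℕ) : ℝ) + 1) / m j := by
    rw [lt_div_iff₀ hm, mul_comm (Int.fract _)]
    exact Nat.lt_floor_add_one _
  have h1 := hq _ hx1 hx2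
  have h2 : distInt (q * ((d j : ℝ) * β)) < del j := by
    have e : (q : ℝ) * ((d j : ℝ) * β) = q * Int.fract ((d j : ℝ) * β)
        + ((q * ⌊(d j : ℝ) * β⌋ : ℤ) : ℝ) := by
      rw [Int.fract]; push_cast; ring
    rw [e, distInt_add_int]
    exact h1
  have hSpos : (0 : ℝ) < S (j + 1) := by exact_mod_cast S_succ_pos j
  have hTpos : (0 : ℝ) < T j := by exact_mod_cast T_pos j
  have hTQ := two_TQ_le j
  have hcard : T j * (b j - T j * Q j) ≤
      pc (fun n => a0 n * β) (S (j + 1)) (1 / (S (j + 1) : ℝ)) := by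
    have e : T j * (b j - T j * Q j)
        = ((Finset.range (T j)) ×ˢ (Finset.range (b j - T j * Q j))).card := by
      rw [Finset.card_product, Finset.card_range, Finset.card_range]
    rw [e]
    unfold pc
    apply Finset.card_le_card_of_injOn
      (fun p : ℕ × ℕ => (S j + (p.2 + (p.1 + 1) * q), S j + p.2))
    · rintro ⟨t, u⟩ hp
      simp only [Finset.coe_product, Finset.coe_range, Set.mem_prod, Set.mem_Iio] at hp
      obtain ⟨ht, hu⟩ := hp
      have htq : (t + 1) * q ≤ T j * Q j := Nat.mul_le_mul ht hqQ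
      have htq0 : 0 < (t + 1) * q := Nat.mul_pos (by omega) hq1
      have hub : u < b j := by omega
      have hub' : u + (t + 1) * q < b j := by omega
      simp only [Finset.coe_filter, Finset.mem_product, Finset.mem_range, Set.mem_ofPred_eq]
      refine ⟨⟨by rw [S_succ]; omega, by rw [S_succ]; omega⟩, by omega, ?_⟩
      rw [a0_add hub, a0_add hub']
      have e2 : ((((u + (t + 1) * q + 1) * d j : ℕ) : ℝ) * β - (((u + 1) * d j : ℕ) : ℝ) * β)
          = ((t + 1 : ℕ) : ℝ) * (q * ((d j : ℝ) * β)) := by push_cast; ring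
      rw [e2]
      calc distInt (((t + 1 : ℕ) : ℝ) * (q * ((d j : ℝ) * β)))
          ≤ ((t + 1 : ℕ) : ℝ) * distInt (q * ((d j : ℝ) * β)) := distInt_natMul_le _ _
        _ < ((t + 1 : ℕ) : ℝ) * del j := by
            apply mul_lt_mul_of_pos_left h2
            positivity
        _ ≤ (T j : ℝ) * del j := by
            apply mul_le_mul_of_nonneg_right _ (del_pos j).le
            exact_mod_cast ht
        _ = 1 / (S (j + 1) : ℝ) := by unfold del; field_simp
    · rintro ⟨t, u⟩ _ ⟨t', u'⟩ _ heq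
      simp only [Prod.mk.injEq] at heq
      obtain ⟨h3, h4⟩ := heq
      have hu : u = u' := by omega
      subst hu
      have h5 : (t + 1) * q = (t' + 1) * q := by omega
      have h6 : t + 1 = t' + 1 := Nat.eq_of_mul_eq_mul_right hq1 h5
      have h7 : t = t' := by omega
      rw [h7]
  have hcard' : (T j : ℝ) * ((b j : ℝ) - T j * Q j) ≤
      (pc (fun n => a0 n * β) (S (j + 1)) (1 / (S (j + 1) : ℝ)) : ℝ) := by
    have hle : T j * Q j ≤ b j := by
      have : T j * Q j ≤ 2 * T j * Q j := by nlinarith [Nat.zero_le (T j * Q j)]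
      omega
    have e : ((T j * (b j - T j * Q j) : ℕ) : ℝ) = (T j : ℝ) * ((b j : ℝ) - T j * Q j) := by
      rw [Nat.cast_mul, Nat.cast_sub hle]; push_cast; ring
    rw [← e]
    exact_mod_cast hcard
  refine le_trans ?_ hcard'
  have h3 : (2 : ℝ) * T j * Q j ≤ b j := by exact_mod_cast hTQ
  have h4 := S_lt_psi_b j
  have hT : (T j : ℝ) = 18 * psi j := by unfold T; push_cast; ring
  have hψ : (0 : ℝ) < psi j := by exact_mod_cast psi_pos j
  have h5 : (T j : ℝ) * ((b j : ℝ) / 2) ≤ (T j : ℝ) * ((b j : ℝ) - T j * Q j) := by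
    apply mul_le_mul_of_nonneg_left _ hTpos.le
    nlinarith
  have h6 : 3 * (S (j + 1) : ℝ) ≤ (T j : ℝ) * ((b j : ℝ) / 2) := by
    rw [hT]; nlinarith
  linarith

/-- the sequence, indexed from one -/
def a : ℕ → ℤ
  | 0 => 0
  | (n + 1) => a0 n

lemma a_succ (n : ℕ) : a (n + 1) = a0 n := rfl

lemma a_strictMono : StrictMono a := by
  apply strictMono_nat_of_lt_succ
  intro n
  cases n with
  | zero => simp only [a]; exact_mod_cast a0_pos 0
  | succ n => simp only [a]; exact_mod_cast a0_strictMono (Nat.lt_succ_self n)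

lemma distInt_fract_sub (x y : ℝ) : distInt (Int.fract x - Int.fract y) = distInt (x - y) := by
  have e : Int.fract x - Int.fract y = (x - y) + ((-⌊x⌋ + ⌊y⌋ : ℤ) : ℝ) := by
    simp only [Int.fract]; push_cast; ring
  rw [e, distInt_add_int]

lemma card_shift (x : ℕ → ℝ) (N : ℕ) (h : ℝ) :
    (((Finset.Icc 1 N) ×ˢ (Finset.Icc 1 N)).filter
        (fun p : ℕ × ℕ => p.1 ≠ p.2 ∧ distInt (x p.1 - x p.2) < h)).card
      = pc (fun n => x (n + 1)) N h := by
  unfold pc
  symm
  apply Finset.card_bij (fun p _ => (p.1 + 1, p.2 + 1))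
  · rintro ⟨k, l⟩ hp
    simp only [Finset.mem_filter, Finset.mem_product, Finset.mem_range, Finset.mem_Icc] at hp ⊢
    refine ⟨⟨⟨by omega, by omega⟩, ⟨by omega, by omega⟩⟩, by omega, hp.2.2⟩
  · rintro ⟨k, l⟩ _ ⟨k', l'⟩ _ heq
    simp only [Prod.mk.injEq] at heq ⊢
    omega
  · rintro ⟨k, l⟩ hp
    simp only [Finset.mem_filter, Finset.mem_product, Finset.mem_Icc] at hp
    obtain ⟨⟨⟨h1, h2⟩, ⟨h3, h4⟩⟩, h5, h6⟩ := hp
    refine ⟨(k - 1, l - 1), ?_, ?_⟩
    · simp only [Finset.mem_filter, Finset.mem_product, Finset.mem_range]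
      refine ⟨⟨by omega, by omega⟩, by omega, ?_⟩
      rw [Nat.sub_add_cancel h1, Nat.sub_add_cancel h3]
      exact h6
    · simp only [Prod.mk.injEq]
      omega

lemma pc_fract (β : ℝ) (N : ℕ) (h : ℝ) :
    pc (fun n => Int.fract ((a (n + 1) : ℝ) * β)) N h = pc (fun n => a0 n * β) N h := by
  unfold pc
  congr 1
  apply Finset.filter_congr
  intro p _
  rw [distInt_fract_sub]
  simp only [a_succ, Int.cast_natCast]

lemma hasPPC_iff (β : ℝ) : HasPPC (fun n => Int.fract ((a n : ℝ) * β)) ↔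
    ∀ s : ℝ, 0 < s → Tendsto (fun N : ℕ => (pc (fun n => a0 n * β) N (s / N) : ℝ) / N)
      atTop (𝓝 (2 * s)) := by
  unfold HasPPC
  simp only [card_shift (fun n => Int.fract ((a n : ℝ) * β)), pc_fract]

lemma cnt_eq_pc (N : ℕ) (h : ℝ) : pc (fun n => a0 n * alpha) N h = cnt N h := by
  unfold pc cnt ind X
  rw [Finset.card_filter, Finset.sum_product]

theorem hasPPC_alpha : HasPPC (fun n => Int.fract ((a n : ℝ) * alpha)) := by
  rw [hasPPC_iff]
  intro s hs
  simp only [cnt_eq_pc]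
  exact ppc_alpha s hs

lemma eventually_not_good {β : ℝ} (h : HasPPC (fun n => Int.fract ((a n : ℝ) * β))) :
    ∃ J, ∀ j, J ≤ j → digit β j ∉ A j := by
  rw [hasPPC_iff] at h
  have h1 := h 1 one_pos
  have h2 : ∀ᶠ N : ℕ in atTop, (pc (fun n => a0 n * β) N (1 / N) : ℝ) / N < 3 :=
    h1.eventually_lt_const (by norm_num)
  have h3 : Tendsto (fun j => S (j + 1)) atTop atTop :=
    (tendsto_add_atTop_iff_nat 1).mpr S_strictMono.tendsto_atTop
  have h4 := h3.eventually h2
  rw [eventually_atTop] at h4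
  obtain ⟨J, hJ⟩ := h4
  refine ⟨J, fun j hj hdig => ?_⟩
  have h5 := hJ j hj
  have h6 := fail β j hdig
  have hSpos : (0 : ℝ) < S (j + 1) := by exact_mod_cast S_succ_pos j
  rw [div_lt_iff₀ hSpos] at h5
  linarith

lemma null_unit : volume {β : ℝ | (0 ≤ β ∧ β < 1) ∧ HasPPC (fun n => Int.fract ((a n : ℝ) * β))} = 0 := by
  have hsub : {β : ℝ | (0 ≤ β ∧ β < 1) ∧ HasPPC (fun n => Int.fract ((a n : ℝ) * β))}
      ⊆ ⋃ J : ℕ, Bad (J + 2000) := by
    rintro β ⟨⟨h0, h1⟩, h2⟩
    obtain ⟨J, hJ⟩ := eventually_not_good h2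
    exact Set.mem_iUnion.mpr ⟨J, h0, h1, fun j hj => hJ j (by omega)⟩
  apply measure_mono_null hsub
  rw [measure_iUnion_null_iff]
  intro J
  exact volume_Bad (by omega)

lemma hasPPC_periodic (β : ℝ) (k : ℤ) (h : HasPPC (fun n => Int.fract ((a n : ℝ) * β))) :
    HasPPC (fun n => Int.fract ((a n : ℝ) * (β + k))) := by
  have e : (fun n => Int.fract ((a n : ℝ) * (β + k))) = (fun n => Int.fract ((a n : ℝ) * β)) := by
    funext n
    have : (a n : ℝ) * (β + k) = (a n : ℝ) * β + ((a n * k : ℤ) : ℝ) := by push_cast; ring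
    rw [this, Int.fract_add_intCast]
  rw [e]
  exact h

theorem ae_not_ppc : ∀ᵐ β : ℝ, ¬ HasPPC (fun n => Int.fract ((a n : ℝ) * β)) := by
  rw [ae_iff]
  simp only [not_not]
  have hsub : {β : ℝ | HasPPC (fun n => Int.fract ((a n : ℝ) * β))} ⊆
      ⋃ k : ℤ, (fun β : ℝ => β + k) ⁻¹'
        {β : ℝ | (0 ≤ β ∧ β < 1) ∧ HasPPC (fun n => Int.fract ((a n : ℝ) * β))} := by
    intro β hβ
    refine Set.mem_iUnion.mpr ⟨-⌊β⌋, ?_⟩
    simp only [Set.mem_preimage, Set.mem_ofPred_eq]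
    refine ⟨⟨?_, ?_⟩, hasPPC_periodic β _ hβ⟩
    · push_cast
      have := Int.floor_le β
      linarith
    · push_cast
      have := Int.lt_floor_add_one β
      linarith
  apply measure_mono_null hsub
  rw [measure_iUnion_null_iff]
  intro k
  rw [measure_preimage_add_right]
  exact null_unit

end Pool.Agent.H53.PPC
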