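import Pool.Agent.H53.PPC.Count

namespace Pool.Agent.H53.PPC

open Finset

/-- number of close pairs between two finite families -/
noncomputable def cross (b b' : ℕ) (X Y : ℕ → ℝ) (h : ℝ) : ℕ :=
  (((Finset.range b) ×ˢ (Finset.range b')).filter
    (fun p : ℕ × ℕ => distInt (X p.1 - Y p.2) < h)).card

lemma cross_le (b b' : ℕ) (hb : 0 < b) (hb' : 0 < b') (X Y : ℕ → ℝ) (c c' ε ε' h : ℝ)
    (hX : ∀ u < b, distInt (X u - ((u : ℝ) / b + c)) ≤ ε)
    (hY : ∀ v < b', distInt (Y v - ((v : ℝ) / b' + c')) ≤ ε')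
    (hε : 0 ≤ ε) (hε' : 0 ≤ ε') (hh : 0 ≤ h) :
    (cross b b' X Y h : ℝ) ≤ 2 * (h + ε + ε') * (b * b') + Nat.gcd b b' := by
  refine le_trans ?_ (pairSet_card_le b b' hb hb' (c - c') (h + ε + ε') (by positivity))
  unfold cross pairSet
  norm_cast
  apply Finset.card_le_card
  intro p hp
  simp only [Finset.mem_filter, Finset.mem_product, Finset.mem_range] at hp ⊢
  obtain ⟨⟨h1, h2⟩, h3⟩ := hp
  refine ⟨⟨h1, h2⟩, ?_⟩
  have e : (p.1 : ℝ) / b - (p.2 : ℝ) / b' + (c - c')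
      = (X p.1 - Y p.2) - (X p.1 - ((p.1 : ℝ) / b + c)) + (Y p.2 - ((p.2 : ℝ) / b' + c')) := by ring
  rw [e]
  have h4 := distInt_add_le ((X p.1 - Y p.2) - (X p.1 - ((p.1 : ℝ) / b + c)))
    (Y p.2 - ((p.2 : ℝ) / b' + c'))
  have h5 := distInt_sub_le (X p.1 - Y p.2) (X p.1 - ((p.1 : ℝ) / b + c))
  have h6 := hX _ h1
  have h7 := hY _ h2
  linarith

lemma le_cross (b b' : ℕ) (hb : 0 < b) (hb' : 0 < b') (X Y : ℕ → ℝ) (c c' ε ε' h : ℝ)
    (hX : ∀ u < b, distInt (X u - ((u : ℝ) / b + c)) ≤ ε)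
    (hY : ∀ v < b', distInt (Y v - ((v : ℝ) / b' + c')) ≤ ε')
    (hε : 0 ≤ ε) (hε' : 0 ≤ ε') (hh : h ≤ 1 / 2) :
    2 * (h - ε - ε') * (b * b') - Nat.gcd b b' ≤ (cross b b' X Y h : ℝ) := by
  refine le_trans (pairSet_card_ge b b' hb hb' (c - c') (h - ε - ε') (by linarith)) ?_
  unfold cross pairSet
  norm_cast
  apply Finset.card_le_card
  intro p hp
  simp only [Finset.mem_filter, Finset.mem_product, Finset.mem_range] at hp ⊢
  obtain ⟨⟨h1, h2⟩, h3⟩ := hp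
  refine ⟨⟨h1, h2⟩, ?_⟩
  have e : X p.1 - Y p.2
      = ((p.1 : ℝ) / b - (p.2 : ℝ) / b' + (c - c')) + (X p.1 - ((p.1 : ℝ) / b + c))
        - (Y p.2 - ((p.2 : ℝ) / b' + c')) := by ring
  rw [e]
  have h4 := distInt_sub_le (((p.1 : ℝ) / b - (p.2 : ℝ) / b' + (c - c')) +
    (X p.1 - ((p.1 : ℝ) / b + c))) (Y p.2 - ((p.2 : ℝ) / b' + c'))
  have h5 := distInt_add_le ((p.1 : ℝ) / b - (p.2 : ℝ) / b' + (c - c'))
    (X p.1 - ((p.1 : ℝ) / b + c))
  have h6 := hX _ h1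
  have h7 := hY _ h2
  linarith

lemma cross_eq_sum (b b' : ℕ) (X Y : ℕ → ℝ) (h : ℝ) :
    cross b b' X Y h = ∑ u ∈ Finset.range b, cross 1 b' (fun _ => X u) Y h := by
  unfold cross
  rw [Finset.card_filter, Finset.sum_product]
  apply Finset.sum_congr rfl
  intro u _
  rw [Finset.card_filter, Finset.sum_product]
  simp

/-- using only the structure of the second block -/
lemma cross_le' (b b' : ℕ) (hb' : 0 < b') (X Y : ℕ → ℝ) (c' ε' h : ℝ)
    (hY : ∀ v < b', distInt (Y v - ((v : ℝ) / b' + c')) ≤ ε')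
    (hε' : 0 ≤ ε') (hh : 0 ≤ h) :
    (cross b b' X Y h : ℝ) ≤ 2 * (h + ε') * (b * b') + b := by
  rw [cross_eq_sum]
  push_cast
  have : ∀ u ∈ Finset.range b, (cross 1 b' (fun _ => X u) Y h : ℝ) ≤ 2 * (h + ε') * b' + 1 := by
    intro u _
    have h1 := cross_le 1 b' one_pos hb' (fun _ => X u) Y (X u) c' 0 ε' h
      (by
        intro v hv
        have : v = 0 := by omega
        subst this
        simp [distInt]) hY le_rfl hε' hh
    simpa using h1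
  calc ∑ u ∈ Finset.range b, (cross 1 b' (fun _ => X u) Y h : ℝ)
      ≤ ∑ u ∈ Finset.range b, (2 * (h + ε') * b' + 1) := Finset.sum_le_sum this
    _ = 2 * (h + ε') * (b * b') + b := by
      rw [Finset.sum_const, Finset.card_range, nsmul_eq_mul]; ring

lemma le_cross' (b b' : ℕ) (hb' : 0 < b') (X Y : ℕ → ℝ) (c' ε' h : ℝ)
    (hY : ∀ v < b', distInt (Y v - ((v : ℝ) / b' + c')) ≤ ε')
    (hε' : 0 ≤ ε') (hh : h ≤ 1 / 2) :
    2 * (h - ε') * (b * b') - b ≤ (cross b b' X Y h : ℝ) := by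
  rw [cross_eq_sum]
  push_cast
  have : ∀ u ∈ Finset.range b, 2 * (h - ε') * b' - 1 ≤ (cross 1 b' (fun _ => X u) Y h : ℝ) := by
    intro u _
    have h1 := le_cross 1 b' one_pos hb' (fun _ => X u) Y (X u) c' 0 ε' h
      (by
        intro v hv
        have : v = 0 := by omega
        subst this
        simp [distInt]) hY le_rfl hε' hh
    simpa using h1
  calc 2 * (h - ε') * (b * b') - b = ∑ u ∈ Finset.range b, (2 * (h - ε') * b' - 1) := by
        rw [Finset.sum_const, Finset.card_range, nsmul_eq_mul]; ring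
    _ ≤ ∑ u ∈ Finset.range b, (cross 1 b' (fun _ => X u) Y h : ℝ) := Finset.sum_le_sum this

lemma cross_symm (b b' : ℕ) (X Y : ℕ → ℝ) (h : ℝ) : cross b b' X Y h = cross b' b Y X h := by
  unfold cross
  apply Finset.card_bij (fun p _ => (p.2, p.1))
  · intro p hp
    simp only [Finset.mem_filter, Finset.mem_product, Finset.mem_range] at hp ⊢
    refine ⟨⟨hp.1.2, hp.1.1⟩, ?_⟩
    rw [← distInt_neg, neg_sub]
    exact hp.2
  · rintro ⟨p1, p2⟩ _ ⟨q1, q2⟩ _ hpq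
    simp only [Prod.mk.injEq] at hpq ⊢
    exact ⟨hpq.2, hpq.1⟩
  · rintro ⟨p1, p2⟩ hp
    refine ⟨(p2, p1), ?_, rfl⟩
    simp only [Finset.mem_filter, Finset.mem_product, Finset.mem_range] at hp ⊢
    refine ⟨⟨hp.1.2, hp.1.1⟩, ?_⟩
    rw [← distInt_neg, neg_sub]
    exact hp.2

end Pool.Agent.H53.PPC
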