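import Pool.Agent.H53.PPC.Good

namespace Pool.Agent.H53.PPC

open Filter Topology Finset MeasureTheory

lemma S_lt_psi_b (j : ℕ) : (S (j + 1) : ℝ) < 3 * psi j * b j := by
  have h1 := b_gt j
  have hψ : (1 : ℝ) ≤ psi j := by exact_mod_cast psi_pos j
  have hb : (0 : ℝ) < b j := by exact_mod_cast b_pos j
  rw [div_lt_iff₀ (by positivity)] at h1
  rw [S_succ]
  push_cast
  nlinarith

lemma A_frac_ge {j : ℕ} (hj : 2000 ≤ j) :
    (m j : ℝ) * (1 / (23328 * ((j : ℝ) + 1))) ≤ ((A j).card : ℝ) := by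
  have hψ1 : (1 : ℝ) ≤ psi j := by exact_mod_cast psi_pos j
  have hψ254 : (254 : ℝ) * psi j ≤ j := by exact_mod_cast psi_small hj
  have hψ4 : (psi j : ℝ) ^ 4 ≤ j + 1 := by exact_mod_cast psi_pow_le j
  have hj' : (2000 : ℝ) ≤ j := by exact_mod_cast hj
  have hSj : (j : ℝ) ^ 2 ≤ S j := by exact_mod_cast sq_le_S j
  have hbgt := b_gt j
  have hm : (0 : ℝ) < m j := by exact_mod_cast m_pos j
  have hT : (T j : ℝ) = 18 * psi j := by unfold T; push_cast; ring
  have hTpos : (0 : ℝ) < T j := by rw [hT]; linarith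
  have hSpos : (0 : ℝ) < S (j + 1) := by exact_mod_cast S_succ_pos j
  -- b j ≥ 6 T j
  have hb6 : 6 * (T j : ℝ) ≤ b j := by
    rw [hT]
    have h1 : 6 * (18 * (psi j : ℝ)) ≤ (S j : ℝ) / (2 * psi j) := by
      rw [le_div_iff₀ (by positivity)]
      nlinarith
    linarith
  have hbpos : (0 : ℝ) < b j := by exact_mod_cast b_pos j
  -- Q lower bound
  have hQ1 : (b j : ℝ) / (2 * T j) - 1 < Q j := by
    have h1 : b j < (2 * T j) * (Q j + 1) := by
      unfold Q
      exact Nat.lt_mul_div_succ _ (by have := T_pos j; omega)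
    have h2 : (b j : ℝ) < (2 * T j) * (Q j + 1) := by exact_mod_cast h1
    rw [sub_lt_iff_lt_add, div_lt_iff₀ (by positivity)]
    linarith
  have hQ2 : (b j : ℝ) / (6 * T j) ≤ (Q j : ℝ) - 1 := by
    have h1 : (2 : ℝ) ≤ (b j : ℝ) / (3 * T j) := by
      rw [le_div_iff₀ (by positivity)]; linarith
    have h2 : (b j : ℝ) / (2 * T j) = (b j : ℝ) / (6 * T j) + (b j : ℝ) / (3 * T j) := by
      field_simp; norm_num
    linarith
  have hQpos : 0 < Q j := by
    have h1 : (0 : ℝ) ≤ (b j : ℝ) / (6 * T j) := by positivity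
    have h2 : (0 : ℝ) < Q j := by linarith
    exact_mod_cast h2
  have hA := A_card_ge j hQpos
  refine le_trans ?_ hA
  have hSb := S_lt_psi_b j
  -- main term
  have hmain : 1 / (11664 * (psi j : ℝ) ^ 3) ≤ del j * (((Q j : ℝ) - 1) / 2) := by
    have h1 : del j * (((b j : ℝ) / (6 * T j)) / 2) ≤ del j * (((Q j : ℝ) - 1) / 2) := by
      apply mul_le_mul_of_nonneg_left _ (del_pos j).le
      linarith
    refine le_trans ?_ h1
    unfold del
    have e : 1 / ((S (j + 1) : ℝ) * T j) * (((b j : ℝ) / (6 * T j)) / 2)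
        = (b j : ℝ) / (12 * (T j : ℝ) ^ 2 * S (j + 1)) := by field_simp; norm_num
    rw [e, hT, div_le_div_iff₀ (by positivity) (by positivity)]
    have h3 : (0 : ℝ) < psi j ^ 2 := by positivity
    nlinarith
  -- small term
  have hsmall : ((Q j : ℝ) + 1) ^ 2 ≤ (m j : ℝ) * (1 / (23328 * (psi j : ℝ) ^ 3)) := by
    have h1 : (12 : ℝ) * (S (j + 1) + 1) ^ 4 ≤ m j := by
      have h2 : 12 * (S (j + 1) + 1) ^ 4 ≤ m j := by
        refine le_trans ?_ (m_ge j)
        have : 1 ≤ 2 ^ j := Nat.one_le_two_pow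
        nlinarith [Nat.one_le_pow 4 (S (j + 1) + 1) (by omega)]
      exact_mod_cast h2
    have hQS : (Q j : ℝ) + 1 ≤ S (j + 1) + 1 := by
      have : (Q j : ℝ) ≤ S (j + 1) := by exact_mod_cast Q_le_S j
      linarith
    have hSj1 : (j : ℝ) ^ 2 ≤ S (j + 1) + 1 := by
      have : (S j : ℝ) ≤ S (j + 1) := by exact_mod_cast S_mono (by omega)
      linarith
    generalize (S (j + 1) : ℝ) = s at *
    generalize (psi j : ℝ) = ψ at *
    generalize (Q j : ℝ) = q at *
    have hq0 : (0 : ℝ) ≤ q + 1 := by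
      have : (0 : ℝ) ≤ (b j : ℝ) / (6 * T j) := by positivity
      linarith
    have hs1 : (0 : ℝ) < s + 1 := by linarith
    have h3 : (q + 1) ^ 2 ≤ (s + 1) ^ 2 := pow_le_pow_left₀ hq0 hQS 2
    have h4 : (23328 : ℝ) * ψ ^ 3 ≤ 12 * (s + 1) ^ 2 := by
      have h5 : ((j : ℝ) ^ 2) ^ 2 ≤ (s + 1) ^ 2 := pow_le_pow_left₀ (by positivity) hSj1 2
      have h6 : ψ ^ 3 ≤ (j : ℝ) ^ 3 := pow_le_pow_left₀ (by linarith) (by linarith) 3
      have h7 : (23328 : ℝ) * (j : ℝ) ^ 3 ≤ 12 * ((j : ℝ) ^ 2) ^ 2 := by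
        have : (0 : ℝ) < (j : ℝ) ^ 3 := by positivity
        nlinarith
      linarith
    rw [mul_one_div, le_div_iff₀ (by positivity)]
    calc (q + 1) ^ 2 * (23328 * ψ ^ 3) ≤ (s + 1) ^ 2 * (12 * (s + 1) ^ 2) :=
          mul_le_mul h3 h4 (by positivity) (by positivity)
      _ = 12 * (s + 1) ^ 4 := by ring
      _ ≤ m j := h1
  have hψ3 : 1 / (23328 * ((j : ℝ) + 1)) ≤ 1 / (23328 * (psi j : ℝ) ^ 3) := by
    apply one_div_le_one_div_of_le (by positivity)
    have : (psi j : ℝ) ^ 3 ≤ (psi j : ℝ) ^ 4 := pow_le_pow_right₀ hψ1 (by norm_num)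
    linarith
  have hm1 := mul_le_mul_of_nonneg_left hψ3 hm.le
  have hm2 := mul_le_mul_of_nonneg_left hmain hm.le
  have e3 : 1 / (11664 * (psi j : ℝ) ^ 3) = 1 / (23328 * (psi j : ℝ) ^ 3) + 1 / (23328 * (psi j : ℝ) ^ 3) := by
    field_simp; norm_num
  rw [e3, mul_add] at hm2
  linarith

/-- the digit of `β` at level `j` -/
noncomputable def digit (β : ℝ) (j : ℕ) : ℕ := ⌊(m j : ℝ) * Int.fract ((d j : ℝ) * β)⌋₊

/-- the cell of `β` at level `j` -/
noncomputable def cell (β : ℝ) (j : ℕ) : ℕ := ⌊(d j : ℝ) * β⌋₊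

lemma cell_succ {β : ℝ} (hβ : 0 ≤ β) (j : ℕ) :
    cell β (j + 1) = cell β j * m j + digit β j := by
  unfold cell digit
  have hd : (0 : ℝ) ≤ (d j : ℝ) * β := by positivity
  have hm : (0 : ℝ) < m j := by exact_mod_cast m_pos j
  have hfl : ((⌊(d j : ℝ) * β⌋₊ : ℕ) : ℝ) = ((⌊(d j : ℝ) * β⌋ : ℤ) : ℝ) := by
    exact natCast_floor_eq_intCast_floor hd
  have e : (d (j + 1) : ℝ) * β = ((⌊(d j : ℝ) * β⌋₊ * m j : ℕ) : ℝ)
      + (m j : ℝ) * Int.fract ((d j : ℝ) * β) := by
    rw [d_succ]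
    push_cast
    rw [hfl, Int.fract]
    ring
  rw [e, add_comm, Nat.floor_add_natCast (by have := Int.fract_nonneg ((d j : ℝ) * β); positivity),
    add_comm]

lemma digit_lt (β : ℝ) (j : ℕ) : digit β j < m j := by
  unfold digit
  have hm : (0 : ℝ) < m j := by exact_mod_cast m_pos j
  rw [Nat.floor_lt (by have := Int.fract_nonneg ((d j : ℝ) * β); positivity)]
  have := Int.fract_lt_one ((d j : ℝ) * β)
  nlinarith

/-- cells avoiding good digits -/
noncomputable def Gs (J : ℕ) : ℕ → Finset ℕ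
  | 0 => Finset.range (d J)
  | (k + 1) => ((Gs J k) ×ˢ (Finset.range (m (J + k)) \ A (J + k))).image
      (fun p => p.1 * m (J + k) + p.2)

lemma A_sub (j : ℕ) : A j ⊆ Finset.range (m j) := by
  intro e he
  rw [Finset.mem_range]
  exact (mem_A.mp he).1

lemma Gs_card_le (J k : ℕ) : ((Gs J k).card : ℝ) ≤
    d (J + k) * ∏ i ∈ Finset.range k, (1 - ((A (J + i)).card : ℝ) / m (J + i)) := by
  induction k with
  | zero => simp [Gs]
  | succ k ih =>
    have h1 : (Gs J (k + 1)).card ≤ (Gs J k).card * (m (J + k) - (A (J + k)).card) := by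
      have e : Gs J (k + 1) = ((Gs J k) ×ˢ (Finset.range (m (J + k)) \ A (J + k))).image
        (fun p => p.1 * m (J + k) + p.2) := rfl
      rw [e]
      refine le_trans Finset.card_image_le ?_
      rw [Finset.card_product, Finset.card_sdiff_of_subset (A_sub _), Finset.card_range]
    have hA : (A (J + k)).card ≤ m (J + k) := by
      have := Finset.card_le_card (A_sub (J + k))
      rwa [Finset.card_range] at this
    have h2 : ((Gs J (k + 1)).card : ℝ) ≤ (Gs J k).card * ((m (J + k) : ℝ) - (A (J + k)).card) := by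
      rw [← Nat.cast_sub hA]
      exact_mod_cast h1
    have hm : (0 : ℝ) < m (J + k) := by exact_mod_cast m_pos _
    have hA' : ((A (J + k)).card : ℝ) ≤ m (J + k) := by exact_mod_cast hA
    rw [Finset.prod_range_succ]
    have e : d (J + (k + 1)) = d (J + k) * m (J + k) := by rw [← add_assoc, d_succ]
    rw [e]
    push_cast
    calc ((Gs J (k + 1)).card : ℝ) ≤ (Gs J k).card * ((m (J + k) : ℝ) - (A (J + k)).card) := h2
      _ ≤ (d (J + k) * ∏ i ∈ Finset.range k, (1 - ((A (J + i)).card : ℝ) / m (J + i)))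
          * ((m (J + k) : ℝ) - (A (J + k)).card) :=
          mul_le_mul_of_nonneg_right ih (by linarith)
      _ = _ := by field_simp

lemma cell_mem_Gs {J k : ℕ} {β : ℝ} (hβ0 : 0 ≤ β) (hβ1 : β < 1)
    (h : ∀ j, J ≤ j → digit β j ∉ A j) : cell β (J + k) ∈ Gs J k := by
  induction k with
  | zero =>
    unfold Gs
    rw [Finset.mem_range, add_zero]
    unfold cell
    have hd : (0 : ℝ) < d J := by exact_mod_cast d_pos J
    rw [Nat.floor_lt (by positivity)]
    nlinarith
  | succ k ih =>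
    unfold Gs
    rw [Finset.mem_image]
    refine ⟨(cell β (J + k), digit β (J + k)), ?_, ?_⟩
    · rw [Finset.mem_product, Finset.mem_sdiff, Finset.mem_range]
      exact ⟨ih, digit_lt β _, h _ (by omega)⟩
    · rw [← add_assoc, cell_succ hβ0]

/-- numbers whose digits are eventually not good -/
def Bad (J : ℕ) : Set ℝ := {β | 0 ≤ β ∧ β < 1 ∧ ∀ j, J ≤ j → digit β j ∉ A j}

lemma Bad_subset (J k : ℕ) : Bad J ⊆ ⋃ x ∈ Gs J k,
    Set.Ico ((x : ℝ) / d (J + k)) (((x : ℝ) + 1) / d (J + k)) := by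
  rintro β ⟨h0, h1, h2⟩
  have h3 := cell_mem_Gs (k := k) h0 h1 h2
  refine Set.mem_biUnion h3 ?_
  have hd : (0 : ℝ) < d (J + k) := by exact_mod_cast d_pos _
  rw [Set.mem_Ico]
  unfold cell
  constructor
  · rw [div_le_iff₀ hd, mul_comm β]
    exact Nat.floor_le (by positivity)
  · rw [lt_div_iff₀ hd, mul_comm β]
    exact Nat.lt_floor_add_one _

lemma volume_Bad_le (J k : ℕ) : volume (Bad J) ≤
    ENNReal.ofReal (∏ i ∈ Finset.range k, (1 - ((A (J + i)).card : ℝ) / m (J + i))) := by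
  have hd : (0 : ℝ) < d (J + k) := by exact_mod_cast d_pos _
  calc volume (Bad J) ≤ volume (⋃ x ∈ Gs J k,
        Set.Ico ((x : ℝ) / d (J + k)) (((x : ℝ) + 1) / d (J + k))) := measure_mono (Bad_subset J k)
    _ ≤ ∑ x ∈ Gs J k, volume (Set.Ico ((x : ℝ) / d (J + k)) (((x : ℝ) + 1) / d (J + k))) :=
        measure_biUnion_finset_le _ _
    _ = ∑ x ∈ Gs J k, ENNReal.ofReal (1 / d (J + k)) := by
        apply Finset.sum_congr rfl
        intro x _
        rw [Real.volume_Ico]
        congr 1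
        field_simp
        ring
    _ = ENNReal.ofReal (((Gs J k).card : ℝ) / d (J + k)) := by
        rw [Finset.sum_const, nsmul_eq_mul, ← ENNReal.ofReal_natCast,
          ← ENNReal.ofReal_mul (by positivity)]
        congr 1
        ring
    _ ≤ _ := by
        apply ENNReal.ofReal_le_ofReal
        rw [div_le_iff₀ hd, mul_comm]
        exact Gs_card_le J k

lemma prod_tendsto {J : ℕ} (hJ : 2000 ≤ J) :
    Tendsto (fun k => ∏ i ∈ Finset.range k, (1 - ((A (J + i)).card : ℝ) / m (J + i)))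
      atTop (𝓝 0) := by
  have hle : ∀ k, ∏ i ∈ Finset.range k, (1 - ((A (J + i)).card : ℝ) / m (J + i)) ≤
      Real.exp (-(1 / 23328) * ∑ i ∈ Finset.range k, 1 / (((i + J : ℕ) : ℝ) + 1)) := by
    intro k
    rw [Finset.mul_sum, Real.exp_sum]
    apply Finset.prod_le_prod
    · intro i _
      have hA : (A (J + i)).card ≤ m (J + i) := by
        have := Finset.card_le_card (A_sub (J + i))
        rwa [Finset.card_range] at this
      have hm : (0 : ℝ) < m (J + i) := by exact_mod_cast m_pos _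
      have hA' : ((A (J + i)).card : ℝ) ≤ m (J + i) := by exact_mod_cast hA
      rw [sub_nonneg, div_le_one hm]
      exact hA'
    · intro i _
      have hm : (0 : ℝ) < m (J + i) := by exact_mod_cast m_pos _
      have h1 := A_frac_ge (j := J + i) (by omega)
      have h2 : (1 / (23328 * (((J + i : ℕ) : ℝ) + 1))) ≤ ((A (J + i)).card : ℝ) / m (J + i) := by
        rw [le_div_iff₀ hm, mul_comm]
        exact h1
      have h3 := Real.add_one_le_exp (-(1 / 23328) * (1 / (((i + J : ℕ) : ℝ) + 1)))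
      have e : (1 : ℝ) / (23328 * (((J + i : ℕ) : ℝ) + 1)) = (1 / 23328) * (1 / (((i + J : ℕ) : ℝ) + 1)) := by
        rw [add_comm J i]
        field_simp
      rw [e] at h2
      linarith
  have h0 : ∀ k, 0 ≤ ∏ i ∈ Finset.range k, (1 - ((A (J + i)).card : ℝ) / m (J + i)) := by
    intro k
    apply Finset.prod_nonneg
    intro i _
    have hA : (A (J + i)).card ≤ m (J + i) := by
      have := Finset.card_le_card (A_sub (J + i))
      rwa [Finset.card_range] at this
    have hm : (0 : ℝ) < m (J + i) := by exact_mod_cast m_pos _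
    have hA' : ((A (J + i)).card : ℝ) ≤ m (J + i) := by exact_mod_cast hA
    rw [sub_nonneg, div_le_one hm]
    exact hA'
  have hdiv : Tendsto (fun k => ∑ i ∈ Finset.range k, 1 / (((i + J : ℕ) : ℝ) + 1)) atTop atTop := by
    have h1 := Real.tendsto_sum_range_one_div_nat_succ_atTop
    have h2 : ¬ Summable (fun i : ℕ => (1 : ℝ) / ((i : ℝ) + 1)) := by
      intro hs
      exact not_tendsto_nhds_of_tendsto_atTop h1 _ hs.hasSum.tendsto_sum_nat
    have h3 : ¬ Summable (fun i : ℕ => (1 : ℝ) / (((i + J : ℕ) : ℝ) + 1)) := by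
      intro hs
      exact h2 ((summable_nat_add_iff (f := fun i : ℕ => (1 : ℝ) / ((i : ℝ) + 1)) J).mp hs)
    exact (not_summable_iff_tendsto_nat_atTop_of_nonneg (fun i => by positivity)).mp h3
  have hexp : Tendsto (fun k => Real.exp (-(1 / 23328) * ∑ i ∈ Finset.range k,
      1 / (((i + J : ℕ) : ℝ) + 1))) atTop (𝓝 0) := by
    apply Real.tendsto_exp_atBot.comp
    exact hdiv.const_mul_atTop_of_neg (by norm_num)
  exact tendsto_of_tendsto_of_tendsto_of_le_of_le tendsto_const_nhds hexp h0 hle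

lemma volume_Bad {J : ℕ} (hJ : 2000 ≤ J) : volume (Bad J) = 0 := by
  have h1 : Tendsto (fun k => ENNReal.ofReal (∏ i ∈ Finset.range k,
      (1 - ((A (J + i)).card : ℝ) / m (J + i)))) atTop (𝓝 0) := by
    have := ENNReal.tendsto_ofReal (prod_tendsto hJ)
    rwa [ENNReal.ofReal_zero] at this
  have h2 := ge_of_tendsto' h1 (volume_Bad_le J)
  exact le_antisymm h2 (zero_le)

end Pool.Agent.H53.PPC
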