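import Pool.Agent.H53.PPC.Seq

namespace Pool.Agent.H53.PPC

open Filter Topology Finset

/-- indicator of a close pair -/
noncomputable def ind (h : ℝ) (k l : ℕ) : ℕ := if k ≠ l ∧ distInt (X k - X l) < h then 1 else 0

/-- number of close pairs among the first `N` terms -/
noncomputable def cnt (N : ℕ) (h : ℝ) : ℕ :=
  ∑ k ∈ Finset.range N, ∑ l ∈ Finset.range N, ind h k l

lemma cnt_mono {N N' : ℕ} (hN : N ≤ N') (h : ℝ) : cnt N h ≤ cnt N' h := by
  unfold cnt
  have hsub : Finset.range N ⊆ Finset.range N' := Finset.range_subset_range.mpr hN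
  calc ∑ k ∈ Finset.range N, ∑ l ∈ Finset.range N, ind h k l
      ≤ ∑ k ∈ Finset.range N, ∑ l ∈ Finset.range N', ind h k l :=
        Finset.sum_le_sum (fun k _ => Finset.sum_le_sum_of_subset hsub)
    _ ≤ ∑ k ∈ Finset.range N', ∑ l ∈ Finset.range N', ind h k l :=
        Finset.sum_le_sum_of_subset hsub

lemma sum_range_S {M : Type*} [AddCommMonoid M] (F : ℕ → M) (J : ℕ) :
    ∑ k ∈ Finset.range (S J), F k = ∑ j ∈ Finset.range J, ∑ u ∈ Finset.range (b j), F (S j + u) := by
  induction J with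
  | zero => simp [S]
  | succ J ih => rw [S_succ, Finset.sum_range_add, ih, Finset.sum_range_succ]

lemma sum_b (J : ℕ) : ∑ j ∈ Finset.range J, b j = S J := by
  induction J with
  | zero => simp [S]
  | succ J ih => rw [Finset.sum_range_succ, ih, S_succ]

lemma sum_b_real (J : ℕ) : ∑ j ∈ Finset.range J, (b j : ℝ) = S J := by
  exact_mod_cast sum_b J

/-- number of close pairs between two blocks -/
noncomputable def crossB (i j : ℕ) (h : ℝ) : ℕ :=
  cross (b i) (b j) (fun u => X (S i + u)) (fun v => X (S j + v)) h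

/-- number of close pairs within a block -/
noncomputable def selfB (j : ℕ) (h : ℝ) : ℕ :=
  ∑ u ∈ Finset.range (b j), ∑ v ∈ Finset.range (b j), ind h (S j + u) (S j + v)

lemma ne_of_blocks {i j u v : ℕ} (hij : i ≠ j) (hu : u < b i) (hv : v < b j) :
    S i + u ≠ S j + v := by
  intro h
  have h1 := blk_add hu
  have h2 := blk_add hv
  rw [h] at h1
  exact hij (h1.symm.trans h2)

lemma crossB_eq {i j : ℕ} (hij : i ≠ j) (h : ℝ) :
    ∑ u ∈ Finset.range (b i), ∑ v ∈ Finset.range (b j), ind h (S i + u) (S j + v)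
      = crossB i j h := by
  unfold crossB cross
  rw [Finset.card_filter, Finset.sum_product]
  apply Finset.sum_congr rfl
  intro u hu
  apply Finset.sum_congr rfl
  intro v hv
  unfold ind
  have := ne_of_blocks hij (Finset.mem_range.mp hu) (Finset.mem_range.mp hv)
  simp [this]

lemma cnt_S (J : ℕ) (h : ℝ) :
    cnt (S J) h = ∑ i ∈ Finset.range J, ∑ j ∈ Finset.range J,
      (if i = j then selfB j h else crossB i j h) := by
  unfold cnt
  rw [sum_range_S]
  apply Finset.sum_congr rfl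
  intro i _
  calc ∑ u ∈ Finset.range (b i), ∑ l ∈ Finset.range (S J), ind h (S i + u) l
      = ∑ u ∈ Finset.range (b i), ∑ j ∈ Finset.range J, ∑ v ∈ Finset.range (b j),
          ind h (S i + u) (S j + v) := by
        apply Finset.sum_congr rfl
        intro u _
        rw [sum_range_S]
    _ = ∑ j ∈ Finset.range J, ∑ u ∈ Finset.range (b i), ∑ v ∈ Finset.range (b j),
          ind h (S i + u) (S j + v) := Finset.sum_comm
    _ = _ := by
        apply Finset.sum_congr rfl
        intro j _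
        by_cases hij : i = j
        · subst hij
          rw [if_pos rfl]
          rfl
        · rw [if_neg hij, crossB_eq hij]

lemma distInt_div_ge {bb : ℕ} (hb : 0 < bb) {u v : ℕ} (hu : u < bb) (hv : v < bb) (huv : u ≠ v) :
    1 / (bb : ℝ) ≤ distInt ((u : ℝ) / bb - (v : ℝ) / bb) := by
  have hbr : (0 : ℝ) < bb := by exact_mod_cast hb
  by_contra hcon
  push Not at hcon
  rw [distInt_lt_iff] at hcon
  obtain ⟨n, hn⟩ := hcon
  have e : (u : ℝ) / bb - (v : ℝ) / bb - n = (((u : ℤ) - v - n * bb : ℤ) : ℝ) / bb := by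
    push_cast; field_simp
  rw [e, abs_div, abs_of_pos hbr, div_lt_div_iff_of_pos_right hbr] at hn
  have h1 : |(u : ℤ) - v - n * bb| < 1 := by exact_mod_cast hn
  have h2 : (u : ℤ) - v - n * bb = 0 := by
    rw [abs_lt] at h1; omega
  have h3 : (bb : ℤ) ∣ (u : ℤ) - v := ⟨n, by linarith⟩
  have h4 : |(u : ℤ) - v| < bb := by
    rw [abs_lt]
    constructor <;> omega
  have h5 := Int.eq_zero_of_abs_lt_dvd h3 h4
  omega

lemma two_eps_b_le (j : ℕ) {t : ℝ} (ht : t ≤ S (j + 1) + 1) : 2 * eps j * b j * t ≤ (1 / 2) ^ j := by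
  refine le_trans ?_ (eps_bound j)
  apply mul_le_mul_of_nonneg_left ht
  have := eps_nonneg j
  positivity

lemma selfB_eq_zero {j : ℕ} {h : ℝ} (hh : h ≤ 1 / (2 * b j)) : selfB j h = 0 := by
  unfold selfB
  apply Finset.sum_eq_zero
  intro u hu
  apply Finset.sum_eq_zero
  intro v hv
  rw [Finset.mem_range] at hu hv
  unfold ind
  rw [if_neg]
  rintro ⟨hne, hlt⟩
  have huv : u ≠ v := by rintro rfl; exact hne rfl
  have h1 := distInt_div_ge (b_pos j) hu hv huv
  have h2 := X_block j u hu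
  have h3 := X_block j v hv
  have hb : (0 : ℝ) < b j := by exact_mod_cast b_pos j
  have e : (u : ℝ) / b j - (v : ℝ) / b j
      = (X (S j + u) - X (S j + v)) - (X (S j + u) - ((u : ℝ) / b j + 1 / b j))
        + (X (S j + v) - ((v : ℝ) / b j + 1 / b j)) := by ring
  rw [e] at h1
  have h4 := distInt_add_le ((X (S j + u) - X (S j + v)) - (X (S j + u) - ((u : ℝ) / b j + 1 / b j)))
    (X (S j + v) - ((v : ℝ) / b j + 1 / b j))
  have h5 := distInt_sub_le (X (S j + u) - X (S j + v)) (X (S j + u) - ((u : ℝ) / b j + 1 / b j))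
  have h6 : 2 * eps j * b j * 2 ≤ (1 / 2) ^ j := by
    apply two_eps_b_le
    have : 1 ≤ S (j + 1) := le_trans (by omega) (le_S (j + 1))
    have : (1 : ℝ) ≤ S (j + 1) := by exact_mod_cast this
    linarith
  have h7 : ((1 : ℝ) / 2) ^ j ≤ 1 := pow_le_one₀ (by norm_num) (by norm_num)
  have h8 : 2 * eps j ≤ 1 / (2 * b j) := by
    rw [le_div_iff₀ (by positivity)]
    linarith
  have h9 : 1 / (b j : ℝ) = 1 / (2 * b j) + 1 / (2 * b j) := by field_simp; norm_num
  linarith

/-- the gcd part of the error -/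
noncomputable def gJ (J : ℕ) : ℝ := Real.sqrt (S J) * (2 * J + 1)

/-- perturbation part of the error -/
noncomputable def w (i j : ℕ) : ℝ := min ((1 / 2) ^ i * (b j : ℝ)) (b i)

lemma w_nonneg (i j : ℕ) : 0 ≤ w i j := by unfold w; positivity

lemma gJ_nonneg (J : ℕ) : 0 ≤ gJ J := by unfold gJ; positivity

lemma eps_bi_bj {i j : ℕ} (hij : i < j) : 2 * eps j * (b i * b j) ≤ 1 := by
  have h1 : (b i : ℝ) ≤ S (j + 1) + 1 := by
    have h2 : b i ≤ S (j + 1) := le_trans (b_le_S i) (S_mono (by omega))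
    have h3 : (b i : ℝ) ≤ S (j + 1) := by exact_mod_cast h2
    linarith
  have h4 := two_eps_b_le j h1
  have h7 : ((1 : ℝ) / 2) ^ j ≤ 1 := pow_le_one₀ (by norm_num) (by norm_num)
  calc 2 * eps j * (b i * b j) = 2 * eps j * b j * b i := by ring
    _ ≤ (1 / 2) ^ j := h4
    _ ≤ 1 := h7

lemma eps_i {i j : ℕ} : 2 * eps i * (b i * b j) ≤ (1 / 2) ^ i * (b j : ℝ) := by
  have h4 := two_eps_b_le i (t := 1) (by
    have : (0 : ℝ) ≤ S (i + 1) := by positivity
    linarith)
  have : 2 * eps i * (b i * b j) = (2 * eps i * b i * 1) * b j := by ring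
  rw [this]
  exact mul_le_mul_of_nonneg_right h4 (by positivity)

lemma crossB_le_of_lt {i j J : ℕ} (hij : i < j) (hj : j < J) {h : ℝ} (hh : 0 ≤ h) :
    (crossB i j h : ℝ) ≤ 2 * h * (b i * b j) + (gJ J + 1) + w i j := by
  have h1 := cross_le (b i) (b j) (b_pos i) (b_pos j) (fun u => X (S i + u)) (fun v => X (S j + v))
    (1 / b i) (1 / b j) (eps i) (eps j) h (fun u hu => X_block i u hu) (fun v hv => X_block j v hv)
    (eps_nonneg i) (eps_nonneg j) hh
  have h2 := cross_le' (b i) (b j) (b_pos j) (fun u => X (S i + u)) (fun v => X (S j + v))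
    (1 / b j) (eps j) h (fun v hv => X_block j v hv) (eps_nonneg j) hh
  have h3 := eps_bi_bj hij
  have h4 := eps_i (i := i) (j := j)
  have h5 := gcd_le (lt_trans hij hj) hj hij.ne
  have h6 := gJ_nonneg J
  unfold w
  rcases le_total ((1 / 2) ^ i * (b j : ℝ)) (b i) with hm | hm
  · rw [min_eq_left hm]
    unfold crossB gJ
    nlinarith
  · rw [min_eq_right hm]
    unfold crossB
    nlinarith

lemma le_crossB_of_lt {i j J : ℕ} (hij : i < j) (hj : j < J) {h : ℝ} (hh : h ≤ 1 / 2) :
    2 * h * (b i * b j) - (gJ J + 1) - w i j ≤ (crossB i j h : ℝ) := by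
  have h1 := le_cross (b i) (b j) (b_pos i) (b_pos j) (fun u => X (S i + u)) (fun v => X (S j + v))
    (1 / b i) (1 / b j) (eps i) (eps j) h (fun u hu => X_block i u hu) (fun v hv => X_block j v hv)
    (eps_nonneg i) (eps_nonneg j) hh
  have h2 := le_cross' (b i) (b j) (b_pos j) (fun u => X (S i + u)) (fun v => X (S j + v))
    (1 / b j) (eps j) h (fun v hv => X_block j v hv) (eps_nonneg j) hh
  have h3 := eps_bi_bj hij
  have h4 := eps_i (i := i) (j := j)
  have h5 := gcd_le (lt_trans hij hj) hj hij.ne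
  have h6 := gJ_nonneg J
  unfold w
  rcases le_total ((1 / 2) ^ i * (b j : ℝ)) (b i) with hm | hm
  · rw [min_eq_left hm]
    unfold crossB gJ
    nlinarith
  · rw [min_eq_right hm]
    unfold crossB
    nlinarith

lemma crossB_symm (i j : ℕ) (h : ℝ) : crossB i j h = crossB j i h := cross_symm _ _ _ _ _

lemma crossB_le {i j J : ℕ} (hij : i ≠ j) (hi : i < J) (hj : j < J) {h : ℝ} (hh : 0 ≤ h) :
    (crossB i j h : ℝ) ≤ 2 * h * (b i * b j) + (gJ J + 1) + (w i j + w j i) := by
  rcases lt_or_gt_of_ne hij with h1 | h1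
  · have := crossB_le_of_lt h1 hj hh
    have := w_nonneg j i
    linarith
  · rw [crossB_symm]
    have := crossB_le_of_lt h1 hi hh
    have := w_nonneg i j
    have e : 2 * h * ((b j : ℝ) * b i) = 2 * h * (b i * b j) := by ring
    linarith

lemma le_crossB {i j J : ℕ} (hij : i ≠ j) (hi : i < J) (hj : j < J) {h : ℝ} (hh : h ≤ 1 / 2) :
    2 * h * (b i * b j) - (gJ J + 1) - (w i j + w j i) ≤ (crossB i j h : ℝ) := by
  rcases lt_or_gt_of_ne hij with h1 | h1
  · have := le_crossB_of_lt h1 hj hh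
    have := w_nonneg j i
    linarith
  · rw [crossB_symm]
    have := le_crossB_of_lt h1 hi hh
    have := w_nonneg i j
    have e : 2 * h * ((b j : ℝ) * b i) = 2 * h * (b i * b j) := by ring
    linarith

/-- total perturbation error -/
noncomputable def W (J : ℕ) : ℝ :=
  ∑ i ∈ Finset.range J, min ((1 / 2) ^ i * (S J : ℝ)) ((b i : ℝ) * J)

lemma sum_w_le (J : ℕ) :
    ∑ i ∈ Finset.range J, ∑ j ∈ Finset.range J, w i j ≤ W J := by
  unfold W
  apply Finset.sum_le_sum
  intro i _
  apply le_min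
  · calc ∑ j ∈ Finset.range J, w i j ≤ ∑ j ∈ Finset.range J, (1 / 2) ^ i * (b j : ℝ) :=
        Finset.sum_le_sum (fun j _ => min_le_left _ _)
      _ = (1 / 2) ^ i * (S J : ℝ) := by rw [← Finset.mul_sum, sum_b_real]
  · calc ∑ j ∈ Finset.range J, w i j ≤ ∑ j ∈ Finset.range J, (b i : ℝ) :=
        Finset.sum_le_sum (fun j _ => min_le_right _ _)
      _ = (b i : ℝ) * J := by rw [Finset.sum_const, Finset.card_range, nsmul_eq_mul, mul_comm]

/-- total error -/
noncomputable def Err (J : ℕ) : ℝ := (J : ℝ) ^ 2 * (gJ J + 1) + 2 * W J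

lemma sum_w_both (J : ℕ) :
    ∑ i ∈ Finset.range J, ∑ j ∈ Finset.range J, (w i j + w j i) ≤ 2 * W J := by
  have h1 := sum_w_le J
  have h2 : ∑ i ∈ Finset.range J, ∑ j ∈ Finset.range J, (w i j + w j i)
      = ∑ i ∈ Finset.range J, ∑ j ∈ Finset.range J, w i j
        + ∑ i ∈ Finset.range J, ∑ j ∈ Finset.range J, w j i := by
    rw [← Finset.sum_add_distrib]
    exact Finset.sum_congr rfl (fun i _ => Finset.sum_add_distrib)
  rw [h2, Finset.sum_comm (f := fun i j => w j i)]
  linarith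

lemma cnt_S_le {J : ℕ} {h : ℝ} (hh : 0 ≤ h) (hself : ∀ j < J, h ≤ 1 / (2 * b j)) :
    (cnt (S J) h : ℝ) ≤ 2 * h * (S J : ℝ) ^ 2 + Err J := by
  rw [cnt_S]
  simp only [Nat.cast_sum]
  have h1 : ∀ i ∈ Finset.range J, ∀ j ∈ Finset.range J,
      ((if i = j then selfB j h else crossB i j h : ℕ) : ℝ) ≤
        2 * h * (b i * b j) + (gJ J + 1) + (w i j + w j i) := by
    intro i hi j hj
    rw [Finset.mem_range] at hi hj
    by_cases hij : i = j
    · rw [if_pos hij, selfB_eq_zero (hself j hj)]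
      have := w_nonneg i j
      have := w_nonneg j i
      have := gJ_nonneg J
      push_cast
      positivity
    · rw [if_neg hij]
      exact crossB_le hij hi hj hh
  calc ∑ i ∈ Finset.range J, ∑ j ∈ Finset.range J,
        ((if i = j then selfB j h else crossB i j h : ℕ) : ℝ)
      ≤ ∑ i ∈ Finset.range J, ∑ j ∈ Finset.range J,
        (2 * h * (b i * b j) + (gJ J + 1) + (w i j + w j i)) :=
        Finset.sum_le_sum (fun i hi => Finset.sum_le_sum (fun j hj => h1 i hi j hj))
    _ = 2 * h * (S J : ℝ) ^ 2 + (J : ℝ) ^ 2 * (gJ J + 1)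
        + ∑ i ∈ Finset.range J, ∑ j ∈ Finset.range J, (w i j + w j i) := by
        simp only [Finset.sum_add_distrib]
        have e1 : ∑ i ∈ Finset.range J, ∑ j ∈ Finset.range J, 2 * h * ((b i : ℝ) * b j)
            = 2 * h * (S J : ℝ) ^ 2 := by
          rw [sq, ← sum_b_real, Finset.sum_mul_sum, Finset.mul_sum]
          apply Finset.sum_congr rfl
          intro i _
          rw [Finset.mul_sum]
        rw [e1]
        simp only [Finset.sum_const, Finset.card_range, nsmul_eq_mul]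
        ring
    _ ≤ 2 * h * (S J : ℝ) ^ 2 + Err J := by
        unfold Err
        have := sum_w_both J
        linarith

lemma le_cnt_S {J : ℕ} {h : ℝ} (hh0 : 0 ≤ h) (hh : h ≤ 1 / 2) :
    2 * h * ((S J : ℝ) ^ 2 - ∑ j ∈ Finset.range J, (b j : ℝ) ^ 2) - Err J ≤ (cnt (S J) h : ℝ) := by
  rw [cnt_S]
  simp only [Nat.cast_sum]
  have h1 : ∀ i ∈ Finset.range J, ∀ j ∈ Finset.range J,
      2 * h * (b i * b j) - (if i = j then 2 * h * (b j : ℝ) ^ 2 else 0)
        - (gJ J + 1) - (w i j + w j i) ≤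
      ((if i = j then selfB j h else crossB i j h : ℕ) : ℝ) := by
    intro i hi j hj
    rw [Finset.mem_range] at hi hj
    by_cases hij : i = j
    · subst hij
      rw [if_pos rfl, if_pos rfl]
      have := w_nonneg i i
      have := gJ_nonneg J
      have h0 : (0 : ℝ) ≤ (selfB i h : ℝ) := by positivity
      nlinarith
    · rw [if_neg hij, if_neg hij, sub_zero]
      exact le_crossB hij hi hj hh
  refine le_trans ?_ (Finset.sum_le_sum (fun i hi => Finset.sum_le_sum (fun j hj => h1 i hi j hj)))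
  have e1 : ∑ i ∈ Finset.range J, ∑ j ∈ Finset.range J, 2 * h * ((b i : ℝ) * b j)
      = 2 * h * (S J : ℝ) ^ 2 := by
    rw [sq, ← sum_b_real, Finset.sum_mul_sum, Finset.mul_sum]
    apply Finset.sum_congr rfl
    intro i _
    rw [Finset.mul_sum]
  have e2 : ∑ i ∈ Finset.range J, ∑ j ∈ Finset.range J,
      (if i = j then 2 * h * (b j : ℝ) ^ 2 else 0) = 2 * h * ∑ j ∈ Finset.range J, (b j : ℝ) ^ 2 := by
    rw [Finset.mul_sum]
    apply Finset.sum_congr rfl
    intro i hi
    rw [Finset.sum_ite_eq, if_pos hi]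
  have e3 : ∑ i ∈ Finset.range J, ∑ j ∈ Finset.range J, (gJ J + 1) = (J : ℝ) ^ 2 * (gJ J + 1) := by
    simp only [Finset.sum_const, Finset.card_range, nsmul_eq_mul]
    ring
  simp only [Finset.sum_sub_distrib]
  rw [e1, e2, e3]
  have := sum_w_both J
  unfold Err
  linarith

end Pool.Agent.H53.PPC
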