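import Pool.Agent.H53.PPC.Defs

namespace Pool.Agent.H53.PPC

open Finset

/-- integers strictly between two reals -/
lemma card_Ioo_floor_ge (A B : ℝ) : B - A - 1 ≤ ((Finset.Ioo ⌊A⌋ ⌈B⌉).card : ℝ) := by
  rw [Int.card_Ioo]
  have h1 : ((⌈B⌉ - ⌊A⌋ - 1 : ℤ) : ℝ) ≤ (((⌈B⌉ - ⌊A⌋ - 1).toNat : ℤ) : ℝ) := by
    exact_mod_cast Int.self_le_toNat _
  have h2 := Int.le_ceil B
  have h3 := Int.floor_le A
  push_cast at h1
  linarith

lemma card_Ioo_floor_le (A B : ℝ) (h : A ≤ B) : ((Finset.Ioo ⌊A⌋ ⌈B⌉).card : ℝ) ≤ B - A + 1 := by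
  rw [Int.card_Ioo]
  have h2 := Int.ceil_lt_add_one B
  have h3 := Int.lt_floor_add_one A
  rcases le_total 0 (⌈B⌉ - ⌊A⌋ - 1) with h0 | h0
  · have h1 : (((⌈B⌉ - ⌊A⌋ - 1).toNat : ℤ) : ℝ) = ((⌈B⌉ - ⌊A⌋ - 1 : ℤ) : ℝ) := by
      exact_mod_cast Int.toNat_of_nonneg h0
    push_cast at h1
    have h4 : (((⌈B⌉ - ⌊A⌋ - 1).toNat : ℕ) : ℝ) = (⌈B⌉ : ℝ) - ⌊A⌋ - 1 := by
      rw [← h1]
    rw [h4]
    linarith
  · rw [Int.toNat_of_nonpos h0]
    push_cast
    linarith

lemma mem_Ioo_floor (A B : ℝ) (w : ℤ) : w ∈ Finset.Ioo ⌊A⌋ ⌈B⌉ ↔ A < w ∧ (w : ℝ) < B := by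
  rw [Finset.mem_Ioo, Int.floor_lt, Int.lt_ceil]

/-- the set of residues `w` with `w / L + y` close to an integer -/
noncomputable def goodRes (L : ℕ) (y h : ℝ) : Finset ℕ :=
  (Finset.range L).filter (fun w : ℕ => distInt ((w : ℝ) / L + y) < h)

lemma goodRes_card_le (L : ℕ) (hL : 0 < L) (y h : ℝ) (hh : 0 ≤ h) :
    ((goodRes L y h).card : ℝ) ≤ 2 * h * L + 1 := by
  have hLr : (0 : ℝ) < L := by exact_mod_cast hL
  -- inject to integers
  have hinj : (goodRes L y h).card ≤ (Finset.Ioo ⌊(L : ℝ) * (-h - y)⌋ ⌈(L : ℝ) * (h - y)⌉).card := by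
    apply Finset.card_le_card_of_injOn
      (fun w : ℕ => (w : ℤ) - L * round ((w : ℝ) / L + y))
    · intro w hw
      have hw' := (Finset.mem_filter.mp hw).2
      simp only [Finset.mem_coe]
      rw [mem_Ioo_floor]
      rw [distInt, abs_lt] at hw'
      obtain ⟨h1, h2⟩ := hw'
      push_cast
      set r : ℝ := (round ((w : ℝ) / L + y) : ℝ) with hr
      have e : (w : ℝ) = L * ((w : ℝ) / L) := by field_simp
      constructor
      · have : (L : ℝ) * (-h - y) < L * ((w : ℝ) / L - r) := by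
          apply mul_lt_mul_of_pos_left _ hLr
          linarith
        calc (L : ℝ) * (-h - y) < L * ((w : ℝ) / L - r) := this
          _ = w - L * r := by rw [mul_sub, ← e]
      · have : L * ((w : ℝ) / L - r) < (L : ℝ) * (h - y) := by
          apply mul_lt_mul_of_pos_left _ hLr
          linarith
        calc w - L * r = L * ((w : ℝ) / L - r) := by rw [mul_sub, ← e]
          _ < _ := this
    · intro w hw w' hw' hww
      have h1 := Finset.mem_range.mp (Finset.mem_filter.mp hw).1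
      have h2 := Finset.mem_range.mp (Finset.mem_filter.mp hw').1
      simp only at hww
      have h3 : ((w : ℤ)) % L = (w' : ℤ) % L := by
        have e1 : ((w : ℤ) - L * round ((w : ℝ) / L + y)) % L = (w : ℤ) % L := by
          rw [Int.sub_emod, Int.mul_emod_right]; simp
        have e2 : ((w' : ℤ) - L * round ((w' : ℝ) / L + y)) % L = (w' : ℤ) % L := by
          rw [Int.sub_emod, Int.mul_emod_right]; simp
        rw [← e1, ← e2, hww]
      rw [Int.emod_eq_of_lt (by positivity) (by exact_mod_cast h1),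
        Int.emod_eq_of_lt (by positivity) (by exact_mod_cast h2)] at h3
      exact_mod_cast h3
  have h1 : ((goodRes L y h).card : ℝ) ≤
      ((Finset.Ioo ⌊(L : ℝ) * (-h - y)⌋ ⌈(L : ℝ) * (h - y)⌉).card : ℝ) := by exact_mod_cast hinj
  have h2 := card_Ioo_floor_le ((L : ℝ) * (-h - y)) ((L : ℝ) * (h - y))
    (by apply mul_le_mul_of_nonneg_left _ hLr.le; linarith)
  calc ((goodRes L y h).card : ℝ) ≤ _ := h1
    _ ≤ _ := h2
    _ = 2 * h * L + 1 := by ring

lemma goodRes_card_ge (L : ℕ) (hL : 0 < L) (y h : ℝ) (hh : h ≤ 1 / 2) :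
    2 * h * L - 1 ≤ ((goodRes L y h).card : ℝ) := by
  have hLr : (0 : ℝ) < L := by exact_mod_cast hL
  have hinj : (Finset.Ioo ⌊(L : ℝ) * (-h - y)⌋ ⌈(L : ℝ) * (h - y)⌉).card ≤ (goodRes L y h).card := by
    apply Finset.card_le_card_of_injOn (fun w : ℤ => (w % (L : ℤ)).toNat)
    · intro w hw
      simp only [Finset.mem_coe] at hw
      rw [mem_Ioo_floor] at hw
      obtain ⟨h1, h2⟩ := hw
      simp only [goodRes, Finset.coe_filter, Set.mem_ofPred_eq, Finset.mem_range]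
      have hL' : (0 : ℤ) < L := by exact_mod_cast hL
      have hm0 := Int.emod_nonneg w hL'.ne'
      have hm1 := Int.emod_lt_of_pos w hL'
      constructor
      · omega
      · have e1 : (((w % (L : ℤ)).toNat : ℕ) : ℝ) = ((w % (L : ℤ) : ℤ) : ℝ) := by
          have : (((w % (L : ℤ)).toNat : ℤ)) = w % (L : ℤ) := Int.toNat_of_nonneg hm0
          exact_mod_cast congrArg (fun z : ℤ => (z : ℝ)) this
        rw [e1, Int.emod_def]
        push_cast
        have e2 : ((w : ℝ) - L * ((w / (L : ℤ) : ℤ) : ℝ)) / L + y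
            = ((w : ℝ) / L + y) + ((-(w / (L : ℤ)) : ℤ) : ℝ) := by
          push_cast
          field_simp
          ring
        rw [e2, distInt_add_int]
        apply lt_of_le_of_lt (distInt_le_abs _)
        rw [abs_lt]
        constructor
        · rw [← sub_lt_iff_lt_add, lt_div_iff₀ hLr]; linarith
        · rw [← lt_sub_iff_add_lt, div_lt_iff₀ hLr]; linarith
    · intro w hw w' hw' hww
      simp only [Finset.mem_coe] at hw hw'
      rw [mem_Ioo_floor] at hw hw'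
      obtain ⟨h1, h2⟩ := hw
      obtain ⟨h3, h4⟩ := hw'
      simp only at hww
      have hL' : (0 : ℤ) < L := by exact_mod_cast hL
      have hm0 := Int.emod_nonneg w hL'.ne'
      have hm0' := Int.emod_nonneg w' hL'.ne'
      have hmod : w % (L : ℤ) = w' % (L : ℤ) := by omega
      have hmod' : w' ≡ w [ZMOD (L : ℤ)] := hmod.symm
      have hdvd : (L : ℤ) ∣ w - w' := hmod'.dvd
      obtain ⟨c, hc⟩ := hdvd
      have hlt : |((w - w' : ℤ) : ℝ)| < L := by
        push_cast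
        rw [abs_lt]
        constructor
        · nlinarith
        · nlinarith
      have hlt' : |w - w'| < (L : ℤ) := by exact_mod_cast hlt
      rw [hc, abs_mul, abs_of_pos hL'] at hlt'
      have hc0 : c = 0 := by
        by_contra hne
        have : 1 ≤ |c| := Int.one_le_abs hne
        nlinarith
      rw [hc0, mul_zero] at hc
      omega
  have h1 : ((Finset.Ioo ⌊(L : ℝ) * (-h - y)⌋ ⌈(L : ℝ) * (h - y)⌉).card : ℝ) ≤
    ((goodRes L y h).card : ℝ) := by exact_mod_cast hinj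
  have h2 := card_Ioo_floor_ge ((L : ℝ) * (-h - y)) ((L : ℝ) * (h - y))
  calc 2 * h * L - 1 = (L : ℝ) * (h - y) - (L : ℝ) * (-h - y) - 1 := by ring
    _ ≤ _ := h2
    _ ≤ _ := h1

/-- The number of pairs `(u, v)`, `u < b`, `v < b'`, with `u / b - v / b' + y` within `h` of an
integer. -/
noncomputable def pairSet (b b' : ℕ) (y h : ℝ) : Finset (ℕ × ℕ) :=
  ((Finset.range b) ×ˢ (Finset.range b')).filter
    (fun p : ℕ × ℕ => distInt ((p.1 : ℝ) / b - (p.2 : ℝ) / b' + y) < h)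

/-- residue of the pair -/
def resid (B B' L : ℕ) (p : ℕ × ℕ) : ℕ := (((p.1 : ℤ) * B' - (p.2 : ℤ) * B) % (L : ℤ)).toNat

lemma fiber_card_le (g B B' : ℕ) (hg : 0 < g) (hB : 0 < B) (hB' : 0 < B')
    (hcop : Nat.Coprime B B') (w : ℕ) :
    (((Finset.range (g * B)) ×ˢ (Finset.range (g * B'))).filter
      (fun p => resid B B' (g * B * B') p = w)).card ≤ g := by
  conv_rhs => rw [← Finset.card_range g]
  apply Finset.card_le_card_of_injOn (fun p : ℕ × ℕ => p.1 / B)
  · intro p hp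
    simp only [Finset.coe_filter, Finset.mem_product, Finset.mem_range, Set.mem_ofPred_eq] at hp
    simp only [Finset.coe_range, Set.mem_Iio]
    exact Nat.div_lt_of_lt_mul (by rw [mul_comm]; exact hp.1.1)
  · intro p hp q hq hpq
    simp only [Finset.coe_filter, Finset.mem_product, Finset.mem_range, Set.mem_ofPred_eq] at hp hq
    obtain ⟨⟨hp1, hp2⟩, hp3⟩ := hp
    obtain ⟨⟨hq1, hq2⟩, hq3⟩ := hq
    simp only at hpq
    have hL : (0 : ℤ) < ((g * B * B' : ℕ) : ℤ) := by positivity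
    have hmod : ((p.1 : ℤ) * B' - (p.2 : ℤ) * B) % ((g * B * B' : ℕ) : ℤ)
        = ((q.1 : ℤ) * B' - (q.2 : ℤ) * B) % ((g * B * B' : ℕ) : ℤ) := by
      have h1 := Int.emod_nonneg ((p.1 : ℤ) * B' - (p.2 : ℤ) * B) hL.ne'
      have h2 := Int.emod_nonneg ((q.1 : ℤ) * B' - (q.2 : ℤ) * B) hL.ne'
      unfold resid at hp3 hq3
      omega
    have hmod' : ((q.1 : ℤ) * B' - (q.2 : ℤ) * B) ≡ ((p.1 : ℤ) * B' - (p.2 : ℤ) * B)
        [ZMOD ((g * B * B' : ℕ) : ℤ)] := hmod.symm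
    have hdvd := hmod'.dvd
    -- B divides p.1 - q.1
    have hcopz : IsCoprime (B : ℤ) (B' : ℤ) := Nat.isCoprime_iff_coprime.mpr hcop
    have hBd : (B : ℤ) ∣ (p.1 : ℤ) - q.1 := by
      have h1 : (B : ℤ) ∣ ((p.1 : ℤ) - q.1) * B' := by
        have h2 : (B : ℤ) ∣ ((p.1 : ℤ) * B' - (p.2 : ℤ) * B) - ((q.1 : ℤ) * B' - (q.2 : ℤ) * B) :=
          dvd_trans ⟨(g : ℤ) * B', by push_cast; ring⟩ hdvd
        have h3 : ((p.1 : ℤ) - q.1) * B'
            = (((p.1 : ℤ) * B' - (p.2 : ℤ) * B) - ((q.1 : ℤ) * B' - (q.2 : ℤ) * B))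
              + B * ((p.2 : ℤ) - q.2) := by ring
        rw [h3]
        exact dvd_add h2 (dvd_mul_right _ _)
      exact hcopz.dvd_of_dvd_mul_right h1
    have hp1eq : p.1 = q.1 := by
      have h1 : (p.1 : ℤ) % B = (q.1 : ℤ) % B := by
        have : (q.1 : ℤ) ≡ (p.1 : ℤ) [ZMOD (B : ℤ)] := (Int.modEq_iff_dvd).mpr hBd
        exact this.symm
      have h2 : p.1 % B = q.1 % B := by exact_mod_cast h1
      calc p.1 = B * (p.1 / B) + p.1 % B := (Nat.div_add_mod p.1 B).symm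
        _ = B * (q.1 / B) + q.1 % B := by rw [hpq, h2]
        _ = q.1 := Nat.div_add_mod q.1 B
    have hp2eq : p.2 = q.2 := by
      rw [hp1eq] at hdvd
      have h1 : ((g * B * B' : ℕ) : ℤ) ∣ B * ((q.2 : ℤ) - p.2) := by
        have : (B : ℤ) * ((q.2 : ℤ) - p.2) =
          ((q.1 : ℤ) * B' - (p.2 : ℤ) * B) - ((q.1 : ℤ) * B' - (q.2 : ℤ) * B) := by ring
        rw [this]; exact hdvd
      have h2 : ((g * B' : ℕ) : ℤ) ∣ ((q.2 : ℤ) - p.2) := by
        have h3 : ((g * B * B' : ℕ) : ℤ) = (B : ℤ) * ((g * B' : ℕ) : ℤ) := by push_cast; ring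
        rw [h3] at h1
        exact Int.dvd_of_mul_dvd_mul_left (by exact_mod_cast hB.ne') h1
      have h3 : |(q.2 : ℤ) - p.2| < ((g * B' : ℕ) : ℤ) := by
        rw [abs_lt]
        constructor
        · have : (p.2 : ℤ) < ((g * B' : ℕ) : ℤ) := by exact_mod_cast hp2
          have : (0 : ℤ) ≤ q.2 := by positivity
          linarith
        · have : (q.2 : ℤ) < ((g * B' : ℕ) : ℤ) := by exact_mod_cast hq2
          have : (0 : ℤ) ≤ p.2 := by positivity
          linarith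
      have h4 := Int.eq_zero_of_abs_lt_dvd h2 h3
      omega
    exact Prod.ext hp1eq hp2eq

lemma resid_lt (B B' L : ℕ) (hL : 0 < L) (p : ℕ × ℕ) : resid B B' L p < L := by
  unfold resid
  have hL' : (0 : ℤ) < L := by exact_mod_cast hL
  have h1 := Int.emod_nonneg ((p.1 : ℤ) * B' - (p.2 : ℤ) * B) hL'.ne'
  have h2 := Int.emod_lt_of_pos ((p.1 : ℤ) * B' - (p.2 : ℤ) * B) hL'
  omega

lemma fiber_card_eq (g B B' : ℕ) (hg : 0 < g) (hB : 0 < B) (hB' : 0 < B')
    (hcop : Nat.Coprime B B') (w : ℕ) (hw : w < g * B * B') :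
    (((Finset.range (g * B)) ×ˢ (Finset.range (g * B'))).filter
      (fun p => resid B B' (g * B * B') p = w)).card = g := by
  have hL : 0 < g * B * B' := by positivity
  have hsum : ∑ w ∈ Finset.range (g * B * B'),
      (((Finset.range (g * B)) ×ˢ (Finset.range (g * B'))).filter
        (fun p => resid B B' (g * B * B') p = w)).card = ∑ w ∈ Finset.range (g * B * B'), g := by
    rw [← Finset.card_eq_sum_card_fiberwise]
    · rw [Finset.card_product, Finset.card_range, Finset.card_range, Finset.sum_const,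
        Finset.card_range, smul_eq_mul]
      ring
    · intro p _
      simp only [Finset.coe_range, Set.mem_Iio]
      exact resid_lt _ _ _ hL _
  have := (Finset.sum_eq_sum_iff_of_le
    (fun w _ => fiber_card_le g B B' hg hB hB' hcop w)).mp hsum
  exact this w (Finset.mem_range.mpr hw)

lemma distInt_resid (g B B' : ℕ) (hg : 0 < g) (hB : 0 < B) (hB' : 0 < B') (y : ℝ) (p : ℕ × ℕ) :
    distInt (((resid B B' (g * B * B') p : ℕ) : ℝ) / ((g * B * B' : ℕ) : ℝ) + y)
      = distInt ((p.1 : ℝ) / ((g * B : ℕ) : ℝ) - (p.2 : ℝ) / ((g * B' : ℕ) : ℝ) + y) := by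
  have hL : (0 : ℤ) < ((g * B * B' : ℕ) : ℤ) := by positivity
  have h1 := Int.emod_nonneg ((p.1 : ℤ) * B' - (p.2 : ℤ) * B) hL.ne'
  have e1 : ((resid B B' (g * B * B') p : ℕ) : ℝ)
      = (((((p.1 : ℤ) * B' - (p.2 : ℤ) * B) % ((g * B * B' : ℕ) : ℤ)) : ℤ) : ℝ) := by
    unfold resid
    have := Int.toNat_of_nonneg h1
    exact_mod_cast congrArg (fun z : ℤ => (z : ℝ)) this
  rw [e1, Int.emod_def]
  set k := ((p.1 : ℤ) * B' - (p.2 : ℤ) * B) / ((g * B * B' : ℕ) : ℤ) with hk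
  have hgr : (g : ℝ) ≠ 0 := by positivity
  have hBr : (B : ℝ) ≠ 0 := by positivity
  have hBr' : (B' : ℝ) ≠ 0 := by positivity
  have e2 : ((((p.1 : ℤ) * B' - (p.2 : ℤ) * B) - ((g * B * B' : ℕ) : ℤ) * k : ℤ) : ℝ)
      / ((g * B * B' : ℕ) : ℝ) + y
      = ((p.1 : ℝ) / ((g * B : ℕ) : ℝ) - (p.2 : ℝ) / ((g * B' : ℕ) : ℝ) + y) + ((-k : ℤ) : ℝ) := by
    push_cast
    field_simp
    ring
  rw [e2, distInt_add_int]

lemma pairSet_card_eq (g B B' : ℕ) (hg : 0 < g) (hB : 0 < B) (hB' : 0 < B')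
    (hcop : Nat.Coprime B B') (y h : ℝ) :
    (pairSet (g * B) (g * B') y h).card = g * (goodRes (g * B * B') y h).card := by
  have hL : 0 < g * B * B' := by positivity
  have hmaps : Set.MapsTo (resid B B' (g * B * B')) ((pairSet (g * B) (g * B') y h : Finset (ℕ × ℕ)) : Set (ℕ × ℕ))
      ((goodRes (g * B * B') y h : Finset ℕ) : Set ℕ) := by
    intro p hp
    simp only [pairSet, Finset.coe_filter, Set.mem_ofPred_eq] at hp
    simp only [goodRes, Finset.coe_filter, Set.mem_ofPred_eq, Finset.mem_range]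
    refine ⟨resid_lt _ _ _ hL _, ?_⟩
    rw [distInt_resid g B B' hg hB hB']
    exact hp.2
  rw [Finset.card_eq_sum_card_fiberwise hmaps]
  rw [Finset.sum_congr rfl (g := fun _ => g)]
  · rw [Finset.sum_const, smul_eq_mul, mul_comm]
  · intro w hw
    have hw' := Finset.mem_filter.mp hw
    refine Eq.trans ?_ (fiber_card_eq g B B' hg hB hB' hcop w (Finset.mem_range.mp hw'.1))
    congr 1
    ext p
    simp only [pairSet, Finset.mem_filter]
    constructor
    · rintro ⟨⟨h1, _⟩, h3⟩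
      exact ⟨h1, h3⟩
    · rintro ⟨h1, h3⟩
      refine ⟨⟨h1, ?_⟩, h3⟩
      rw [← distInt_resid g B B' hg hB hB', h3]
      exact hw'.2

lemma pairSet_card_le (b b' : ℕ) (hb : 0 < b) (hb' : 0 < b') (y h : ℝ) (hh : 0 ≤ h) :
    ((pairSet b b' y h).card : ℝ) ≤ 2 * h * (b * b') + Nat.gcd b b' := by
  have hg : 0 < Nat.gcd b b' := Nat.gcd_pos_of_pos_left _ hb
  obtain ⟨B, hB⟩ := Nat.gcd_dvd_left b b'
  obtain ⟨B', hB'⟩ := Nat.gcd_dvd_right b b'
  set g := Nat.gcd b b' with hgdef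
  have hBpos : 0 < B := Nat.pos_of_ne_zero (by rintro rfl; simp at hB; omega)
  have hBpos' : 0 < B' := Nat.pos_of_ne_zero (by rintro rfl; simp at hB'; omega)
  have hcop : Nat.Coprime B B' := by
    have h1 : Nat.gcd (g * B) (g * B') = g := by rw [← hB, ← hB']
    rw [Nat.gcd_mul_left] at h1
    exact Nat.eq_of_mul_eq_mul_left hg (by rw [h1, mul_one])
  have hL : 0 < g * B * B' := by positivity
  have h1 := goodRes_card_le (g * B * B') hL y h hh
  have h2 : ((pairSet b b' y h).card : ℝ) = g * ((goodRes (g * B * B') y h).card : ℝ) := by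
    rw [← Nat.cast_mul, ← pairSet_card_eq g B B' hg hBpos hBpos' hcop, ← hB, ← hB']
  rw [h2]
  have hgr : (0 : ℝ) < g := by exact_mod_cast hg
  have hbr : (b : ℝ) = g * B := by exact_mod_cast hB
  have hbr' : (b' : ℝ) = g * B' := by exact_mod_cast hB'
  calc (g : ℝ) * ((goodRes (g * B * B') y h).card : ℝ)
      ≤ g * (2 * h * ((g * B * B' : ℕ) : ℝ) + 1) := mul_le_mul_of_nonneg_left h1 hgr.le
    _ = 2 * h * (b * b') + g := by rw [hbr, hbr']; push_cast; ring

lemma pairSet_card_ge (b b' : ℕ) (hb : 0 < b) (hb' : 0 < b') (y h : ℝ) (hh : h ≤ 1 / 2) :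
    2 * h * (b * b') - Nat.gcd b b' ≤ ((pairSet b b' y h).card : ℝ) := by
  have hg : 0 < Nat.gcd b b' := Nat.gcd_pos_of_pos_left _ hb
  obtain ⟨B, hB⟩ := Nat.gcd_dvd_left b b'
  obtain ⟨B', hB'⟩ := Nat.gcd_dvd_right b b'
  set g := Nat.gcd b b' with hgdef
  have hBpos : 0 < B := Nat.pos_of_ne_zero (by rintro rfl; simp at hB; omega)
  have hBpos' : 0 < B' := Nat.pos_of_ne_zero (by rintro rfl; simp at hB'; omega)
  have hcop : Nat.Coprime B B' := by
    have h1 : Nat.gcd (g * B) (g * B') = g := by rw [← hB, ← hB']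
    rw [Nat.gcd_mul_left] at h1
    exact Nat.eq_of_mul_eq_mul_left hg (by rw [h1, mul_one])
  have hL : 0 < g * B * B' := by positivity
  have h1 := goodRes_card_ge (g * B * B') hL y h hh
  have h2 : ((pairSet b b' y h).card : ℝ) = g * ((goodRes (g * B * B') y h).card : ℝ) := by
    rw [← Nat.cast_mul, ← pairSet_card_eq g B B' hg hBpos hBpos' hcop, ← hB, ← hB']
  rw [h2]
  have hgr : (0 : ℝ) < g := by exact_mod_cast hg
  have hbr : (b : ℝ) = g * B := by exact_mod_cast hB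
  have hbr' : (b' : ℝ) = g * B' := by exact_mod_cast hB'
  calc 2 * h * (b * b') - g = g * (2 * h * ((g * B * B' : ℕ) : ℝ) - 1) := by
        rw [hbr, hbr']; push_cast; ring
    _ ≤ (g : ℝ) * ((goodRes (g * B * B') y h).card : ℝ) := mul_le_mul_of_nonneg_left h1 hgr.le

end Pool.Agent.H53.PPC
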