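import Mathlib

namespace Pool.Agent.H53.PPC

open Filter Topology

/-- The distance from a real number to the nearest integer. -/
noncomputable def distInt (x : ℝ) : ℝ := |x - round x|

/-- Poissonian pair correlations of the sequence `x 1, x 2, x 3, ...` of real numbers. -/
def HasPPC (x : ℕ → ℝ) : Prop :=
  ∀ s : ℝ, 0 < s →
    Tendsto (fun N : ℕ =>
      ((((Finset.Icc 1 N) ×ˢ (Finset.Icc 1 N)).filter
        (fun p : ℕ × ℕ => p.1 ≠ p.2 ∧ distInt (x p.1 - x p.2) < s / N)).card : ℝ) / N)
      atTop (𝓝 (2 * s))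

lemma distInt_eq_norm (x : ℝ) : distInt x = ‖(x : UnitAddCircle)‖ := by
  rw [distInt, UnitAddCircle.norm_eq]

lemma distInt_nonneg (x : ℝ) : 0 ≤ distInt x := abs_nonneg _

lemma distInt_add_le (x y : ℝ) : distInt (x + y) ≤ distInt x + distInt y := by
  simp only [distInt_eq_norm, AddCircle.coe_add]
  exact norm_add_le _ _

lemma distInt_sub_le (x y : ℝ) : distInt (x - y) ≤ distInt x + distInt y := by
  simp only [distInt_eq_norm, AddCircle.coe_sub]
  exact norm_sub_le _ _

lemma distInt_neg (x : ℝ) : distInt (-x) = distInt x := by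
  simp only [distInt_eq_norm, AddCircle.coe_neg]
  exact norm_neg _

lemma distInt_add_int (x : ℝ) (n : ℤ) : distInt (x + n) = distInt x := by
  simp only [distInt, round_add_intCast]
  push_cast
  congr 1
  ring

lemma distInt_le_abs_sub (x : ℝ) (n : ℤ) : distInt x ≤ |x - n| := by
  exact round_le x n

lemma distInt_le_abs (x : ℝ) : distInt x ≤ |x| := by
  have := distInt_le_abs_sub x 0
  simpa using this

lemma distInt_lt_iff (x h : ℝ) : distInt x < h ↔ ∃ n : ℤ, |x - n| < h := by
  constructor
  · intro hx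
    exact ⟨round x, hx⟩
  · rintro ⟨n, hn⟩
    exact lt_of_le_of_lt (distInt_le_abs_sub x n) hn

lemma distInt_natMul_le (n : ℕ) (x : ℝ) : distInt (n * x) ≤ n * distInt x := by
  have h1 : distInt (n * x) ≤ |(n * x) - ((n * round x : ℤ) : ℝ)| := distInt_le_abs_sub _ _
  have h2 : (n * x) - ((n * round x : ℤ) : ℝ) = n * (x - round x) := by push_cast; ring
  rw [h2, abs_mul, Nat.abs_cast] at h1
  exact h1

end Pool.Agent.H53.PPC
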