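import Pool.Agent.H53.PPC.Seq

namespace Pool.Agent.H53.PPC

open Filter Topology Finset MeasureTheory

/-- number of multiples used -/
def T (j : ℕ) : ℕ := 18 * psi j

/-- maximal denominator used -/
def Q (j : ℕ) : ℕ := b j / (2 * T j)

/-- radius -/
noncomputable def del (j : ℕ) : ℝ := 1 / ((S (j + 1) : ℝ) * T j)

lemma T_pos (j : ℕ) : 0 < T j := by unfold T; have := psi_pos j; omega

lemma two_TQ_le (j : ℕ) : 2 * T j * Q j ≤ b j := Nat.mul_div_le _ _

lemma S_succ_pos (j : ℕ) : 0 < S (j + 1) := by rw [S_succ]; have := b_pos j; omega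

lemma del_pos (j : ℕ) : 0 < del j := by
  unfold del
  have h1 : (0 : ℝ) < S (j + 1) := by exact_mod_cast S_succ_pos j
  have h2 : (0 : ℝ) < T j := by exact_mod_cast T_pos j
  positivity

lemma Q_le_S (j : ℕ) : Q j ≤ S (j + 1) := by
  refine le_trans ?_ (b_le_S j)
  unfold Q
  exact Nat.div_le_self _ _

lemma del_Q_le (j : ℕ) : del j * Q j ≤ 1 := by
  unfold del
  have h1 : (0 : ℝ) < S (j + 1) := by exact_mod_cast S_succ_pos j
  have h2 : (1 : ℝ) ≤ T j := by exact_mod_cast T_pos j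
  have h3 : (Q j : ℝ) ≤ S (j + 1) := by exact_mod_cast Q_le_S j
  rw [one_div_mul_eq_div, div_le_one (by positivity)]
  nlinarith

lemma del_le_one (j : ℕ) : del j ≤ 1 := by
  unfold del
  have h1 : (1 : ℝ) ≤ S (j + 1) := by exact_mod_cast S_succ_pos j
  have h2 : (1 : ℝ) ≤ T j := by exact_mod_cast T_pos j
  rw [div_le_one (by positivity)]
  nlinarith

/-- good digits -/
noncomputable def A (j : ℕ) : Finset ℕ := by
  classical
  exact (Finset.range (m j)).filter (fun e => ∃ q : ℕ, 1 ≤ q ∧ q ≤ Q j ∧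
    ∀ x : ℝ, (e : ℝ) / m j ≤ x → x < ((e : ℝ) + 1) / m j → distInt (q * x) < del j)

lemma mem_A {j e : ℕ} : e ∈ A j ↔ e < m j ∧ ∃ q : ℕ, 1 ≤ q ∧ q ≤ Q j ∧
    ∀ x : ℝ, (e : ℝ) / m j ≤ x → x < ((e : ℝ) + 1) / m j → distInt (q * x) < del j := by
  classical
  unfold A
  rw [Finset.mem_filter, Finset.mem_range]

/-- reduced fractions in `[0,1)` with denominator at most `n` -/
def Fr (n : ℕ) : Finset (ℕ × ℕ) :=
  ((Finset.range (n + 1)) ×ˢ (Finset.range (n + 1))).filter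
    (fun f => 1 ≤ f.2 ∧ f.1 < f.2 ∧ Nat.Coprime f.1 f.2)

lemma mem_Fr {n : ℕ} {f : ℕ × ℕ} :
    f ∈ Fr n ↔ f.2 ≤ n ∧ 1 ≤ f.2 ∧ f.1 < f.2 ∧ Nat.Coprime f.1 f.2 := by
  unfold Fr
  rw [Finset.mem_filter, Finset.mem_product, Finset.mem_range, Finset.mem_range]
  constructor
  · rintro ⟨⟨h1, h2⟩, h3, h4, h5⟩
    exact ⟨by omega, h3, h4, h5⟩
  · rintro ⟨h1, h2, h3, h4⟩
    exact ⟨⟨by omega, by omega⟩, h2, h3, h4⟩

lemma Fr_card_le (n : ℕ) : (Fr n).card ≤ (n + 1) ^ 2 := by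
  unfold Fr
  refine le_trans (Finset.card_filter_le _ _) ?_
  rw [Finset.card_product, Finset.card_range, sq]

/-- Dirichlet: the reduced fractions cover -/
lemma cover (n : ℕ) (hn : 0 < n) (x : ℝ) (hx0 : 0 ≤ x) (hx1 : x < 1) :
    ∃ f ∈ insert ((1, 1) : ℕ × ℕ) (Fr n), x ∈ Metric.closedBall ((f.1 : ℝ) / f.2)
      (1 / (((n : ℝ) + 1) * f.2)) := by
  obtain ⟨r, hr1, hr2⟩ := Real.exists_rat_abs_sub_le_and_den_le x hn
  have hden : (0 : ℝ) < r.den := by exact_mod_cast r.den_pos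
  have hnr : (1 : ℝ) ≤ n := by exact_mod_cast hn
  have hrnum : (r : ℝ) = (r.num : ℝ) / r.den := by
    have := Rat.num_div_den r
    exact_mod_cast congrArg (fun z : ℚ => (z : ℝ)) this.symm
  have hsmall : 1 / (((n : ℝ) + 1) * r.den) < 1 / r.den := by
    apply one_div_lt_one_div_of_lt hden
    nlinarith
  have hlt : |x - r| < 1 / r.den := lt_of_le_of_lt hr1 hsmall
  rw [abs_lt] at hlt
  -- numerator bounds
  have hnum0 : 0 ≤ r.num := by
    by_contra hneg
    push Not at hneg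
    have h1 : (r.num : ℝ) ≤ -1 := by
      have : r.num ≤ -1 := by omega
      exact_mod_cast this
    have h2 : (r : ℝ) ≤ -(1 / r.den) := by
      rw [hrnum, div_le_iff₀ hden, neg_mul, one_div_mul_cancel hden.ne']
      exact h1
    linarith [hlt.2]
  have hnum1 : r.num ≤ r.den := by
    by_contra hneg
    push Not at hneg
    have h1 : (r.den : ℝ) + 1 ≤ (r.num : ℝ) := by
      have : (r.den : ℤ) + 1 ≤ r.num := by omega
      exact_mod_cast this
    have h2 : 1 + (1 / r.den) ≤ (r : ℝ) := by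
      rw [hrnum, le_div_iff₀ hden, add_mul, one_div_mul_cancel hden.ne', one_mul]
      exact h1
    linarith [hlt.1]
  have hcop : Nat.Coprime r.num.toNat r.den := by
    have := r.reduced
    have e : r.num.natAbs = r.num.toNat := by omega
    rwa [e] at this
  have hnumcast : ((r.num.toNat : ℕ) : ℝ) = (r.num : ℝ) := by
    have : ((r.num.toNat : ℕ) : ℤ) = r.num := Int.toNat_of_nonneg hnum0
    exact_mod_cast congrArg (fun z : ℤ => (z : ℝ)) this
  have hmem : x ∈ Metric.closedBall (((r.num.toNat, r.den) : ℕ × ℕ).1 / (((r.num.toNat, r.den) : ℕ × ℕ).2 : ℝ))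
      (1 / (((n : ℝ) + 1) * ((r.num.toNat, r.den) : ℕ × ℕ).2)) := by
    simp only [Metric.mem_closedBall, Real.dist_eq]
    rw [hnumcast, ← hrnum]
    exact hr1
  refine ⟨(r.num.toNat, r.den), ?_, hmem⟩
  rcases Nat.lt_or_ge r.num.toNat r.den with h | h
  · rw [Finset.mem_insert]
    right
    rw [mem_Fr]
    exact ⟨hr2, r.den_pos, h, hcop⟩
  · have heq : r.num.toNat = r.den := by omega
    rw [heq, Nat.coprime_self] at hcop
    rw [heq, hcop]
    exact Finset.mem_insert_self _ _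

lemma sum_inv_den_ge (n : ℕ) (hn : 0 < n) :
    ((n : ℝ) - 1) / 2 ≤ ∑ f ∈ Fr n, 1 / (f.2 : ℝ) := by
  classical
  have hn1 : (0 : ℝ) < (n : ℝ) + 1 := by positivity
  have hcov : Set.Ico (0 : ℝ) 1 ⊆ ⋃ f ∈ insert ((1, 1) : ℕ × ℕ) (Fr n),
      Metric.closedBall ((f.1 : ℝ) / f.2) (1 / (((n : ℝ) + 1) * f.2)) := by
    intro x hx
    obtain ⟨f, hf1, hf2⟩ := cover n hn x hx.1 hx.2
    exact Set.mem_biUnion hf1 hf2
  have h1 : (volume (Set.Ico (0 : ℝ) 1)) ≤
      ∑ f ∈ insert ((1, 1) : ℕ × ℕ) (Fr n), volume (Metric.closedBall ((f.1 : ℝ) / f.2)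
        (1 / (((n : ℝ) + 1) * f.2))) :=
    le_trans (measure_mono hcov) (measure_biUnion_finset_le _ _)
  simp only [Real.volume_Ico, Real.volume_closedBall, sub_zero, ENNReal.ofReal_one] at h1
  rw [← ENNReal.ofReal_sum_of_nonneg (fun f _ => by positivity)] at h1
  have h2 : (1 : ℝ) ≤ ∑ f ∈ insert ((1, 1) : ℕ × ℕ) (Fr n), 2 * (1 / (((n : ℝ) + 1) * f.2)) := by
    by_contra hcon
    push Not at hcon
    have := (ENNReal.ofReal_lt_one).mpr hcon
    exact absurd h1 (not_le.mpr this)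
  have hnot : ((1, 1) : ℕ × ℕ) ∉ Fr n := by
    rw [mem_Fr]; simp
  rw [Finset.sum_insert hnot] at h2
  have e : ∑ f ∈ Fr n, 2 * (1 / (((n : ℝ) + 1) * f.2)) = (2 / ((n : ℝ) + 1)) * ∑ f ∈ Fr n, 1 / (f.2 : ℝ) := by
    rw [Finset.mul_sum]
    apply Finset.sum_congr rfl
    intro f hf
    have hf2 : (0 : ℝ) < f.2 := by
      have := (mem_Fr.mp hf).2.1
      exact_mod_cast this
    field_simp
  rw [e] at h2
  simp only [Nat.cast_one, mul_one] at h2
  have h3 : ((n : ℝ) + 1) * 1 ≤ ((n : ℝ) + 1) * (2 * (1 / ((n : ℝ) + 1)) +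
      (2 / ((n : ℝ) + 1)) * ∑ f ∈ Fr n, 1 / (f.2 : ℝ)) := mul_le_mul_of_nonneg_left h2 hn1.le
  have h4 : ((n : ℝ) + 1) * (2 * (1 / ((n : ℝ) + 1)) +
      (2 / ((n : ℝ) + 1)) * ∑ f ∈ Fr n, 1 / (f.2 : ℝ)) = 2 + 2 * ∑ f ∈ Fr n, 1 / (f.2 : ℝ) := by
    field_simp
  rw [h4] at h3
  linarith

/-- number of cells to the right of a fraction with denominator `q` -/
noncomputable def kk (j q : ℕ) : ℕ := ⌊(m j : ℝ) * del j / q⌋₊

lemma frac_cell {j p q i : ℕ} (hq : 1 ≤ q) (hqm : q ∣ m j) (hi : i < kk j q) :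
    ((p * (m j / q) + i : ℕ) : ℝ) / m j = (p : ℝ) / q + i / m j ∧
    ((i : ℝ) + 1) / m j ≤ del j / q := by
  have hm : (0 : ℝ) < m j := by exact_mod_cast m_pos j
  have hqr : (0 : ℝ) < q := by exact_mod_cast hq
  constructor
  · push_cast
    rw [Nat.cast_div hqm hqr.ne']
    field_simp
  · have h1 : ((i + 1 : ℕ) : ℝ) ≤ (m j : ℝ) * del j / q := by
      refine le_trans ?_ (Nat.floor_le (by have := del_pos j; positivity))
      exact_mod_cast hi
    rw [div_le_iff₀ hm]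
    push_cast at h1
    calc (i : ℝ) + 1 ≤ (m j : ℝ) * del j / q := h1
      _ = del j / q * m j := by ring

lemma cell_mem_A {j p q i : ℕ} (hq : 1 ≤ q) (hqQ : q ≤ Q j) (hpq : p < q) (hi : i < kk j q) :
    p * (m j / q) + i ∈ A j := by
  have hm : (0 : ℝ) < m j := by exact_mod_cast m_pos j
  have hqr : (1 : ℝ) ≤ q := by exact_mod_cast hq
  have hqm : q ∣ m j := by
    unfold m
    exact Dvd.dvd.mul_left (Nat.dvd_factorial hq (le_trans hqQ (Q_le_S j))) _
  obtain ⟨h1, h2⟩ := frac_cell (p := p) hq hqm hi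
  have hdel := del_pos j
  have hdel1 := del_le_one j
  rw [mem_A]
  constructor
  · have h3 : (((p * (m j / q) + i : ℕ) : ℝ)) / m j < 1 := by
      rw [h1]
      have h4 : (i : ℝ) / m j < ((i : ℝ) + 1) / m j := by
        apply div_lt_div_of_pos_right _ hm
        linarith
      have h5 : del j / q ≤ 1 / q := div_le_div_of_nonneg_right hdel1 (by linarith)
      have h6 : (p : ℝ) / q + 1 / q ≤ 1 := by
        rw [← add_div, div_le_one (by linarith)]
        exact_mod_cast hpq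
      linarith
    rw [div_lt_one hm] at h3
    exact_mod_cast h3
  · refine ⟨q, hq, hqQ, ?_⟩
    intro x hx1 hx2
    refine lt_of_le_of_lt (distInt_le_abs_sub _ (p : ℤ)) ?_
    rw [add_div, h1] at hx2
    rw [h1] at hx1
    have h7 : x < p / q + del j / q := by
      have : (i : ℝ) / m j + 1 / m j ≤ del j / q := by rw [← add_div]; exact h2
      linarith
    have h8 : (p : ℝ) / q ≤ x := by
      have : (0 : ℝ) ≤ (i : ℝ) / m j := by positivity
      linarith
    have hq0 : (0 : ℝ) < q := by linarith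
    have e : (q : ℝ) * x - ((p : ℤ) : ℝ) = q * (x - p / q) := by
      push_cast; field_simp
    rw [e, abs_of_nonneg (by apply mul_nonneg hq0.le; linarith)]
    calc (q : ℝ) * (x - p / q) < q * (del j / q) := by
          apply mul_lt_mul_of_pos_left _ hq0; linarith
      _ = del j := by field_simp

lemma cells_disjoint {j p q p' q' i i' : ℕ} (hf : (p, q) ∈ Fr (Q j)) (hf' : (p', q') ∈ Fr (Q j))
    (hi : i < kk j q) (hi' : i' < kk j q')
    (h : p * (m j / q) + i = p' * (m j / q') + i') : (p, q) = (p', q') ∧ i = i' := by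
  obtain ⟨hq1, hq2, hq3, hq4⟩ := mem_Fr.mp hf
  obtain ⟨hq1', hq2', hq3', hq4'⟩ := mem_Fr.mp hf'
  simp only at hq1 hq2 hq3 hq4 hq1' hq2' hq3' hq4'
  have hm : (0 : ℝ) < m j := by exact_mod_cast m_pos j
  have hqm : q ∣ m j := by
    unfold m
    exact Dvd.dvd.mul_left (Nat.dvd_factorial hq2 (le_trans hq1 (Q_le_S j))) _
  have hqm' : q' ∣ m j := by
    unfold m
    exact Dvd.dvd.mul_left (Nat.dvd_factorial hq2' (le_trans hq1' (Q_le_S j))) _
  obtain ⟨h1, h2⟩ := frac_cell (p := p) hq2 hqm hi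
  obtain ⟨h1', h2'⟩ := frac_cell (p := p') hq2' hqm' hi'
  have hdel := del_pos j
  have hdelQ := del_Q_le j
  have hq0 : (0 : ℝ) < q := by exact_mod_cast hq2
  have hq0' : (0 : ℝ) < q' := by exact_mod_cast hq2'
  have heq : (p : ℝ) / q + i / m j = (p' : ℝ) / q' + i' / m j := by
    rw [← h1, ← h1', h]
  have hi1 : (i : ℝ) / m j < del j / q := by
    have : (i : ℝ) / m j < ((i : ℝ) + 1) / m j := by
      apply div_lt_div_of_pos_right _ hm
      linarith
    linarith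
  have hi1' : (i' : ℝ) / m j < del j / q' := by
    have : (i' : ℝ) / m j < ((i' : ℝ) + 1) / m j := by
      apply div_lt_div_of_pos_right _ hm
      linarith
    linarith
  have hi0 : (0 : ℝ) ≤ (i : ℝ) / m j := by positivity
  have hi0' : (0 : ℝ) ≤ (i' : ℝ) / m j := by positivity
  -- cross multiplied difference
  have hz : (p : ℤ) * q' - p' * q = 0 := by
    have hlt : |(((p : ℤ) * q' - p' * q : ℤ) : ℝ)| < 1 := by
      have e : (((p : ℤ) * q' - p' * q : ℤ) : ℝ) = (q * q') * ((i' : ℝ) / m j - i / m j) := by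
        have : (i' : ℝ) / m j - i / m j = (p : ℝ) / q - (p' : ℝ) / q' := by linarith
        rw [this]
        push_cast
        field_simp
      rw [e, abs_lt]
      have hQr : (q : ℝ) ≤ Q j := by exact_mod_cast hq1
      have hQr' : (q' : ℝ) ≤ Q j := by exact_mod_cast hq1'
      constructor
      · have h5 : -(del j / q) < (i' : ℝ) / m j - i / m j := by linarith
        have h6 : (q * q' : ℝ) * (-(del j / q)) < (q * q') * ((i' : ℝ) / m j - i / m j) :=
          mul_lt_mul_of_pos_left h5 (by positivity)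
        have h7 : (q * q' : ℝ) * (-(del j / q)) = -(del j * q') := by field_simp
        have h8 : del j * q' ≤ 1 := le_trans (mul_le_mul_of_nonneg_left hQr' hdel.le) hdelQ
        linarith
      · have h5 : (i' : ℝ) / m j - i / m j < (del j / q') := by linarith
        have h6 : (q * q') * ((i' : ℝ) / m j - i / m j) < (q * q' : ℝ) * ((del j / q')) :=
          mul_lt_mul_of_pos_left h5 (by positivity)
        have h7 : (q * q' : ℝ) * (del j / q') = (del j * q) := by field_simp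
        have h8 : del j * q ≤ 1 := le_trans (mul_le_mul_of_nonneg_left hQr hdel.le) hdelQ
        linarith
    have hlt' : |(p : ℤ) * q' - p' * q| < 1 := by exact_mod_cast hlt
    exact Int.abs_lt_one_iff.mp hlt'
  have hz' : p * q' = p' * q := by
    have : (p : ℤ) * q' = p' * q := by linarith
    exact_mod_cast this
  have hqq : q = q' := by
    apply Nat.dvd_antisymm
    · have : q ∣ p * q' := ⟨p', by rw [hz']; ring⟩
      exact hq4.symm.dvd_of_dvd_mul_left this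
    · have : q' ∣ p' * q := ⟨p, by rw [← hz']; ring⟩
      exact hq4'.symm.dvd_of_dvd_mul_left this
  subst hqq
  have hpp : p = p' := Nat.eq_of_mul_eq_mul_right hq2 hz'
  subst hpp
  exact ⟨rfl, by omega⟩

lemma sum_kk_le (j : ℕ) : ∑ f ∈ Fr (Q j), kk j f.2 ≤ (A j).card := by
  classical
  have h1 : ∑ f ∈ Fr (Q j), kk j f.2
      = ((Fr (Q j)).sigma (fun f => Finset.range (kk j f.2))).card := by
    rw [Finset.card_sigma]
    simp
  rw [h1]
  apply Finset.card_le_card_of_injOn (fun x => x.1.1 * (m j / x.1.2) + x.2)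
  · rintro ⟨⟨p, q⟩, i⟩ hx
    simp only [Finset.coe_sigma, Set.mem_sigma_iff, Finset.mem_coe, Finset.mem_range] at hx
    obtain ⟨hf, hi⟩ := hx
    obtain ⟨hq1, hq2, hq3, hq4⟩ := mem_Fr.mp hf
    simp only [Finset.mem_coe]
    exact cell_mem_A hq2 hq1 hq3 hi
  · rintro ⟨⟨p, q⟩, i⟩ hx ⟨⟨p', q'⟩, i'⟩ hx' heq
    simp only [Finset.coe_sigma, Set.mem_sigma_iff, Finset.mem_coe, Finset.mem_range] at hx hx'
    simp only at heq
    obtain ⟨h1, h2⟩ := cells_disjoint hx.1 hx'.1 hx.2 hx'.2 heq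
    obtain ⟨rfl, rfl⟩ := Prod.mk.inj h1
    subst h2
    rfl

lemma A_card_ge (j : ℕ) (hQ : 0 < Q j) :
    (m j : ℝ) * (del j * (((Q j : ℝ) - 1) / 2)) - ((Q j : ℝ) + 1) ^ 2 ≤ ((A j).card : ℝ) := by
  have h1 : ((∑ f ∈ Fr (Q j), kk j f.2 : ℕ) : ℝ) ≤ ((A j).card : ℝ) := by
    exact_mod_cast sum_kk_le j
  refine le_trans ?_ h1
  have hm : (0 : ℝ) < m j := by exact_mod_cast m_pos j
  have hdel := del_pos j
  have h2 : ∑ f ∈ Fr (Q j), ((m j : ℝ) * del j * (1 / f.2) - 1) ≤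
      ((∑ f ∈ Fr (Q j), kk j f.2 : ℕ) : ℝ) := by
    rw [Nat.cast_sum]
    apply Finset.sum_le_sum
    intro f _
    have h3 := Nat.lt_floor_add_one ((m j : ℝ) * del j / f.2)
    have e : (m j : ℝ) * del j * (1 / f.2) = (m j : ℝ) * del j / f.2 := by ring
    rw [e]
    unfold kk
    linarith
  refine le_trans ?_ h2
  rw [Finset.sum_sub_distrib, ← Finset.mul_sum]
  have h4 := sum_inv_den_ge (Q j) hQ
  have h5 : ((Fr (Q j)).card : ℝ) ≤ ((Q j : ℝ) + 1) ^ 2 := by exact_mod_cast Fr_card_le (Q j)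
  simp only [Finset.sum_const, nsmul_eq_mul, mul_one]
  have h6 : (m j : ℝ) * del j * (((Q j : ℝ) - 1) / 2) ≤ (m j : ℝ) * del j * ∑ f ∈ Fr (Q j), 1 / (f.2 : ℝ) :=
    mul_le_mul_of_nonneg_left h4 (by positivity)
  have e2 : (m j : ℝ) * (del j * (((Q j : ℝ) - 1) / 2)) = (m j : ℝ) * del j * (((Q j : ℝ) - 1) / 2) := by ring
  rw [e2]
  linarith

end Pool.Agent.H53.PPC
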