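import Mathlib

namespace Pool.Agent.H53.PPC

open Filter Topology Finset

/-- slowly growing function -/
def psi (j : ℕ) : ℕ := Nat.sqrt (Nat.sqrt (j + 1))

/-- partial sums of block lengths -/
def S : ℕ → ℕ
  | 0 => 0
  | (j + 1) => S j + (2 ^ Nat.log 2 (S j / psi j) + (2 * j + 1))

/-- block lengths -/
def b (j : ℕ) : ℕ := 2 ^ Nat.log 2 (S j / psi j) + (2 * j + 1)

lemma S_succ (j : ℕ) : S (j + 1) = S j + b j := rfl

lemma psi_pos (j : ℕ) : 0 < psi j := by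
  unfold psi
  rw [Nat.sqrt_pos, Nat.sqrt_pos]
  omega

lemma psi_pow_le (j : ℕ) : psi j ^ 4 ≤ j + 1 := by
  unfold psi
  have h1 := Nat.sqrt_le' (Nat.sqrt (j + 1))
  have h2 := Nat.sqrt_le' (j + 1)
  calc (Nat.sqrt (Nat.sqrt (j + 1))) ^ 4 = ((Nat.sqrt (Nat.sqrt (j + 1))) ^ 2) ^ 2 := by ring
    _ ≤ (Nat.sqrt (j + 1)) ^ 2 := Nat.pow_le_pow_left h1 2
    _ ≤ j + 1 := h2

lemma psi_mono : Monotone psi := by
  intro i j hij
  unfold psi
  exact Nat.sqrt_le_sqrt (Nat.sqrt_le_sqrt (by omega))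

lemma psi_tendsto : Tendsto psi atTop atTop := by
  rw [tendsto_atTop]
  intro n
  filter_upwards [eventually_ge_atTop (n ^ 4)] with j hj
  unfold psi
  rw [Nat.le_sqrt', Nat.le_sqrt']
  calc (n ^ 2) ^ 2 = n ^ 4 := by ring
    _ ≤ j + 1 := by omega

lemma b_pos (j : ℕ) : 0 < b j := by unfold b; positivity

lemma S_mono : Monotone S := monotone_nat_of_le_succ (fun n => by rw [S_succ]; omega)

lemma S_strictMono : StrictMono S :=
  strictMono_nat_of_lt_succ (fun n => by rw [S_succ]; have := b_pos n; omega)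

lemma sq_le_S (j : ℕ) : j ^ 2 ≤ S j := by
  induction j with
  | zero => simp
  | succ j ih =>
    rw [S_succ]
    have : 2 * j + 1 ≤ b j := Nat.le_add_left _ _
    calc (j + 1) ^ 2 = j ^ 2 + (2 * j + 1) := by ring
      _ ≤ S j + b j := by omega

lemma le_S (j : ℕ) : j ≤ S j := le_trans (by nlinarith) (sq_le_S j)

lemma b_gt (j : ℕ) : (S j : ℝ) / (2 * psi j) < b j := by
  have hψ : (0 : ℝ) < psi j := by exact_mod_cast psi_pos j
  have h1 : S j / psi j < 2 ^ (Nat.log 2 (S j / psi j) + 1) := Nat.lt_pow_succ_log_self (by norm_num) _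
  have h2 : S j < psi j * 2 ^ (Nat.log 2 (S j / psi j) + 1) := by
    have := Nat.lt_mul_of_div_lt h1 (psi_pos j)
    rw [mul_comm] at this
    exact this
  have h3 : (S j : ℝ) < psi j * 2 ^ (Nat.log 2 (S j / psi j) + 1) := by exact_mod_cast h2
  rw [div_lt_iff₀ (by positivity)]
  have h4 : (b j : ℝ) = 2 ^ Nat.log 2 (S j / psi j) + (2 * j + 1) := by unfold b; push_cast; ring
  rw [h4]
  rw [pow_succ] at h3
  have h5 : (0 : ℝ) ≤ (2 * j + 1) * (2 * psi j) := by positivity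
  nlinarith

lemma pow_log_le (j : ℕ) : 2 ^ Nat.log 2 (S j / psi j) ≤ S j / psi j + 1 := by
  rcases Nat.eq_zero_or_pos (S j / psi j) with h | h
  · rw [h]; simp
  · exact le_trans (Nat.pow_log_le_self 2 h.ne') (Nat.le_succ _)

lemma b_le (j : ℕ) : (b j : ℝ) ≤ (S j : ℝ) / psi j + (2 * j + 2) := by
  have h1 := pow_log_le j
  have h2 : b j ≤ S j / psi j + (2 * j + 2) := by unfold b; omega
  have h3 : (b j : ℝ) ≤ ((S j / psi j : ℕ) : ℝ) + (2 * j + 2) := by exact_mod_cast h2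
  have h4 : ((S j / psi j : ℕ) : ℝ) ≤ (S j : ℝ) / psi j := Nat.cast_div_le
  linarith

lemma S_tendsto : Tendsto (fun j => (S j : ℝ)) atTop atTop :=
  tendsto_natCast_atTop_atTop.comp S_strictMono.tendsto_atTop

/-- `b j / S j → 0` -/
lemma b_div_S : Tendsto (fun j => (b j : ℝ) / S j) atTop (𝓝 0) := by
  have hψ : Tendsto (fun j => (1 : ℝ) / (psi j : ℝ)) atTop (𝓝 0) :=
    tendsto_const_nhds.div_atTop (tendsto_natCast_atTop_atTop.comp psi_tendsto)
  have h4 : Tendsto (fun j : ℕ => (4 : ℝ) / (j : ℝ)) atTop (𝓝 0) :=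
    tendsto_const_nhds.div_atTop tendsto_natCast_atTop_atTop
  have hsum : Tendsto (fun j : ℕ => (1 : ℝ) / (psi j : ℝ) + 4 / (j : ℝ)) atTop (𝓝 0) := by
    simpa using hψ.add h4
  refine tendsto_of_tendsto_of_tendsto_of_le_of_le' tendsto_const_nhds hsum ?_ ?_
  · exact Eventually.of_forall (fun j => by positivity)
  · filter_upwards [eventually_ge_atTop 1] with j hj
    have hj' : (1 : ℝ) ≤ j := by exact_mod_cast hj
    have hS : (j : ℝ) ^ 2 ≤ S j := by exact_mod_cast sq_le_S j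
    have hSpos : (0 : ℝ) < S j := by nlinarith
    have hψ : (0 : ℝ) < psi j := by exact_mod_cast psi_pos j
    rw [div_le_iff₀ hSpos]
    have h1 := b_le j
    have h2 : (4 : ℝ) / j * S j ≥ 4 * j := by
      rw [ge_iff_le, div_mul_eq_mul_div, le_div_iff₀ (by positivity)]
      nlinarith
    calc (b j : ℝ) ≤ (S j : ℝ) / psi j + (2 * j + 2) := h1
      _ ≤ (S j : ℝ) / psi j + 4 / j * S j := by linarith
      _ = (1 / psi j + 4 / j) * S j := by ring

/-- super-polynomial growth (degree 7 suffices) -/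
lemma psi_small {j : ℕ} (hj : 2000 ≤ j) : 254 * psi j ≤ j := by
  by_contra hcon
  push Not at hcon
  have h1 := psi_pow_le j
  have h2 : psi j ^ 4 ≤ 254 * psi j := by omega
  have h3 : psi j ^ 3 ≤ 254 := by
    have hpos := psi_pos j
    have : psi j * psi j ^ 3 ≤ psi j * 254 := by
      calc psi j * psi j ^ 3 = psi j ^ 4 := by ring
        _ ≤ 254 * psi j := h2
        _ = psi j * 254 := by ring
    exact Nat.le_of_mul_le_mul_left this hpos
  have h4 : psi j ≤ 6 := by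
    by_contra h
    push Not at h
    have : 7 ^ 3 ≤ psi j ^ 3 := Nat.pow_le_pow_left h 3
    omega
  omega

lemma S_ratio_mono {j : ℕ} (hj : 2000 ≤ j) :
    (S j : ℝ) / (j : ℝ) ^ 7 ≤ (S (j + 1) : ℝ) / ((j + 1 : ℕ) : ℝ) ^ 7 := by
  have hj' : (2000 : ℝ) ≤ j := by exact_mod_cast hj
  have hψ : (0 : ℝ) < psi j := by exact_mod_cast psi_pos j
  have h1 : (254 : ℝ) * psi j ≤ j := by exact_mod_cast psi_small hj
  have hS : (0 : ℝ) ≤ S j := by positivity
  rw [div_le_div_iff₀ (by positivity) (by positivity)]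
  have hb := b_gt j
  rw [S_succ]
  push_cast
  have h2 : ((j : ℝ) + 1) ^ 7 ≤ (j : ℝ) ^ 7 * (1 + 127 / j) := by
    have e : ((j : ℝ) + 1) ^ 7 = (j : ℝ) ^ 7 * (1 + 1 / j) ^ 7 := by
      rw [← mul_pow]; congr 1; field_simp
    rw [e]
    apply mul_le_mul_of_nonneg_left _ (by positivity)
    set x : ℝ := 1 / j with hx
    have hx0 : 0 ≤ x := by positivity
    have hx1 : x ≤ 1 := by rw [hx, div_le_one (by positivity)]; linarith
    have e2 : (127 : ℝ) / j = 127 * x := by rw [hx]; ring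
    rw [e2]
    have hx2 : x ^ 2 ≤ x := by nlinarith
    have hx3 : x ^ 3 ≤ x := by nlinarith [mul_nonneg hx0 hx0]
    have hx4 : x ^ 4 ≤ x := by nlinarith [mul_nonneg hx0 hx0, pow_nonneg hx0 3]
    have hx5 : x ^ 5 ≤ x := by nlinarith [mul_nonneg hx0 hx0, pow_nonneg hx0 4]
    have hx6 : x ^ 6 ≤ x := by nlinarith [mul_nonneg hx0 hx0, pow_nonneg hx0 5]
    have hx7 : x ^ 7 ≤ x := by nlinarith [mul_nonneg hx0 hx0, pow_nonneg hx0 6]
    nlinarith
  have h3 : (127 : ℝ) / j ≤ 1 / (2 * psi j) := by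
    rw [div_le_div_iff₀ (by positivity) (by positivity)]
    linarith
  have h4 : (1 : ℝ) + 127 / j ≤ 1 + 1 / (2 * psi j) := by linarith
  calc (S j : ℝ) * ((j : ℝ) + 1) ^ 7 ≤ S j * ((j : ℝ) ^ 7 * (1 + 127 / j)) :=
        mul_le_mul_of_nonneg_left h2 hS
    _ ≤ S j * ((j : ℝ) ^ 7 * (1 + 1 / (2 * psi j))) := by
        apply mul_le_mul_of_nonneg_left _ hS
        apply mul_le_mul_of_nonneg_left h4 (by positivity)
    _ = (S j + S j / (2 * psi j)) * (j : ℝ) ^ 7 := by ring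
    _ ≤ (S j + b j) * (j : ℝ) ^ 7 := by
        apply mul_le_mul_of_nonneg_right _ (by positivity)
        linarith

lemma S_growth_aux (j0 : ℕ) (h0 : 2000 ≤ j0) (j : ℕ) (hj : j0 ≤ j) :
    (S j0 : ℝ) / (j0 : ℝ) ^ 7 ≤ (S j : ℝ) / (j : ℝ) ^ 7 := by
  induction j, hj using Nat.le_induction with
  | base => exact le_rfl
  | succ j hj ih => exact le_trans ih (S_ratio_mono (le_trans h0 hj))

lemma S_growth : ∃ c : ℝ, 0 < c ∧ ∀ j : ℕ, 2000 ≤ j → c * (j : ℝ) ^ 7 ≤ S j := by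
  obtain ⟨j0, hj0⟩ : ∃ j0 : ℕ, j0 = 2000 := ⟨_, rfl⟩
  refine ⟨(S j0 : ℝ) / (j0 : ℝ) ^ 7, ?_, ?_⟩
  · have h1 : (j0 : ℝ) ^ 2 ≤ S j0 := by exact_mod_cast sq_le_S j0
    have h2 : (0 : ℝ) < j0 := by rw [hj0]; norm_num
    have h3 : (0 : ℝ) < S j0 := lt_of_lt_of_le (by positivity) h1
    positivity
  · intro j hj
    have h := S_growth_aux j0 (by omega) j (by omega)
    have hj' : (2000 : ℝ) ≤ j := by exact_mod_cast hj
    rwa [le_div_iff₀ (by positivity)] at h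

/-- the greatest common divisor of two different block lengths is small -/
lemma gcd_sq_le_aux (p q c c' J : ℕ) (hpq : q ≤ p) (hc : c < J) (hc' : c' < J) (hne : c ≠ c') :
    (Nat.gcd (2 ^ p + (2 * c + 1)) (2 ^ q + (2 * c' + 1))) ^ 2 ≤ 2 ^ p * (2 * J + 1) ^ 2 := by
  set g := Nat.gcd (2 ^ p + (2 * c + 1)) (2 ^ q + (2 * c' + 1)) with hg
  have h1 : (g : ℤ) ∣ ((2 ^ p + (2 * c + 1) : ℕ) : ℤ) := by exact_mod_cast Nat.gcd_dvd_left _ _
  have h2 : (g : ℤ) ∣ ((2 ^ q + (2 * c' + 1) : ℕ) : ℤ) := by exact_mod_cast Nat.gcd_dvd_right _ _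
  obtain ⟨r, rfl⟩ := Nat.exists_eq_add_of_le hpq
  have h3 : (g : ℤ) ∣ 2 ^ r * (2 * c' + 1) - (2 * c + 1) := by
    have e : (2 : ℤ) ^ r * (2 * c' + 1) - (2 * c + 1)
        = 2 ^ r * ((2 ^ q + (2 * c' + 1) : ℕ) : ℤ) - ((2 ^ (q + r) + (2 * c + 1) : ℕ) : ℤ) := by
      push_cast; ring
    rw [e]
    exact dvd_sub (Dvd.dvd.mul_left h2 _) h1
  have h4 : (2 : ℤ) ^ r * (2 * c' + 1) - (2 * c + 1) ≠ 0 := by
    rcases Nat.eq_zero_or_pos r with hr | hr
    · subst hr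
      simp only [pow_zero, one_mul]
      omega
    · obtain ⟨r', rfl⟩ := Nat.exists_eq_succ_of_ne_zero hr.ne'
      intro h
      have : (2 : ℤ) ^ (r' + 1) * (2 * c' + 1) = 2 * (2 ^ r' * (2 * c' + 1)) := by ring
      rw [Nat.succ_eq_add_one, this] at h
      omega
  have hJ : (1 : ℤ) ≤ J := by omega
  have h2r : (1 : ℤ) ≤ 2 ^ r := one_le_pow₀ (by norm_num)
  have h5 : (g : ℤ) ≤ 2 ^ r * (2 * J) := by
    have h6 := Int.le_of_dvd (abs_pos.mpr h4) ((dvd_abs _ _).mpr h3)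
    refine le_trans h6 ?_
    rw [abs_le]
    have hc1 : (c : ℤ) + 1 ≤ J := by exact_mod_cast hc
    have hc1' : (c' : ℤ) + 1 ≤ J := by exact_mod_cast hc'
    have hc0 : (0 : ℤ) ≤ c := by positivity
    have hc0' : (0 : ℤ) ≤ c' := by positivity
    constructor
    · nlinarith
    · nlinarith
  have h7 : (g : ℤ) ≤ 2 ^ q * (2 * J + 1) := by
    have h8 : g ≤ 2 ^ q + (2 * c' + 1) := Nat.le_of_dvd (by positivity) (Nat.gcd_dvd_right _ _)
    have h9 : (g : ℤ) ≤ 2 ^ q + (2 * c' + 1) := by exact_mod_cast h8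
    have hc1' : (c' : ℤ) + 1 ≤ J := by exact_mod_cast hc'
    have h2q : (1 : ℤ) ≤ 2 ^ q := one_le_pow₀ (by norm_num)
    nlinarith
  have hg0 : (0 : ℤ) ≤ g := by positivity
  have h10 : ((g : ℤ)) ^ 2 ≤ 2 ^ (q + r) * (2 * J + 1) ^ 2 := by
    calc (g : ℤ) ^ 2 = g * g := by ring
      _ ≤ (2 ^ r * (2 * J)) * (2 ^ q * (2 * J + 1)) := mul_le_mul h5 h7 hg0 (by positivity)
      _ ≤ (2 ^ r * (2 * J + 1)) * (2 ^ q * (2 * J + 1)) := by
          apply mul_le_mul_of_nonneg_right _ (by positivity)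
          nlinarith
      _ = 2 ^ (q + r) * (2 * J + 1) ^ 2 := by ring
  exact_mod_cast h10

lemma pow_log_le_S {i J : ℕ} (hi : i < J) : 2 ^ Nat.log 2 (S i / psi i) ≤ S J := by
  have h1 : S (i + 1) ≤ S J := S_mono hi
  rw [S_succ] at h1
  have h2 : 2 ^ Nat.log 2 (S i / psi i) ≤ b i := Nat.le_add_right _ _
  omega

lemma gcd_sq_le {i j J : ℕ} (hi : i < J) (hj : j < J) (hne : i ≠ j) :
    (Nat.gcd (b i) (b j)) ^ 2 ≤ S J * (2 * J + 1) ^ 2 := by
  rcases le_total (Nat.log 2 (S j / psi j)) (Nat.log 2 (S i / psi i)) with h | h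
  · refine le_trans (gcd_sq_le_aux _ _ i j J h hi hj hne) ?_
    exact Nat.mul_le_mul_right _ (pow_log_le_S hi)
  · rw [Nat.gcd_comm]
    refine le_trans (gcd_sq_le_aux _ _ j i J h hj hi hne.symm) ?_
    exact Nat.mul_le_mul_right _ (pow_log_le_S hj)

lemma gcd_le {i j J : ℕ} (hi : i < J) (hj : j < J) (hne : i ≠ j) :
    (Nat.gcd (b i) (b j) : ℝ) ≤ Real.sqrt (S J) * (2 * J + 1) := by
  have h1 : ((Nat.gcd (b i) (b j) : ℝ)) ^ 2 ≤ S J * (2 * J + 1) ^ 2 := by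
    exact_mod_cast gcd_sq_le hi hj hne
  have h2 : (0 : ℝ) ≤ Nat.gcd (b i) (b j) := by positivity
  have h3 := Real.sqrt_le_sqrt h1
  rw [Real.sqrt_sq h2, Real.sqrt_mul (by positivity), Real.sqrt_sq (by positivity)] at h3
  exact h3

/-- total gcd error -/
lemma gcd_err_tendsto :
    Tendsto (fun J : ℕ => ((J : ℝ) ^ 2 * (Real.sqrt (S J) * (2 * J + 1))) / S J) atTop (𝓝 0) := by
  obtain ⟨c, hc, hcS⟩ := S_growth
  have h4 : Tendsto (fun J : ℕ => (3 / Real.sqrt c) * (1 / Real.sqrt (J : ℝ))) atTop (𝓝 0) := by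
    rw [← mul_zero (3 / Real.sqrt c)]
    apply Tendsto.const_mul
    apply Tendsto.div_atTop tendsto_const_nhds
    exact Real.tendsto_sqrt_atTop.comp tendsto_natCast_atTop_atTop
  refine tendsto_of_tendsto_of_tendsto_of_le_of_le' tendsto_const_nhds h4 ?_ ?_
  · exact Eventually.of_forall (fun j => by positivity)
  · filter_upwards [eventually_ge_atTop 2000] with j hj
    have hj' : (2000 : ℝ) ≤ j := by exact_mod_cast hj
    have h1 := hcS j hj
    have hSpos : (0 : ℝ) < S j := lt_of_lt_of_le (by positivity) h1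
    have hs : 0 < Real.sqrt (S j) := Real.sqrt_pos.mpr hSpos
    have h2 : Real.sqrt c * ((j : ℝ) ^ 3 * Real.sqrt j) ≤ Real.sqrt (S j) := by
      have := Real.sqrt_le_sqrt h1
      refine le_trans (le_of_eq ?_) this
      rw [Real.sqrt_mul hc.le]
      congr 1
      rw [show (j : ℝ) ^ 7 = ((j : ℝ) ^ 3) ^ 2 * j by ring, Real.sqrt_mul (by positivity),
        Real.sqrt_sq (by positivity)]
    have hsc : 0 < Real.sqrt c := Real.sqrt_pos.mpr hc
    have hsj : 0 < Real.sqrt (j : ℝ) := Real.sqrt_pos.mpr (by linarith)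
    have e1 : (j : ℝ) ^ 2 * (Real.sqrt (S j) * (2 * j + 1)) / S j
        = (j : ℝ) ^ 2 * (2 * j + 1) / Real.sqrt (S j) := by
      rw [div_eq_div_iff hSpos.ne' hs.ne']
      have : Real.sqrt (S j) * Real.sqrt (S j) = S j := Real.mul_self_sqrt hSpos.le
      calc (j : ℝ) ^ 2 * (Real.sqrt (S j) * (2 * j + 1)) * Real.sqrt (S j)
          = (j : ℝ) ^ 2 * (2 * j + 1) * (Real.sqrt (S j) * Real.sqrt (S j)) := by ring
        _ = (j : ℝ) ^ 2 * (2 * j + 1) * S j := by rw [this]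
    rw [e1, div_le_iff₀ hs]
    calc (j : ℝ) ^ 2 * (2 * j + 1) ≤ 3 * (j : ℝ) ^ 3 := by nlinarith [pow_pos (show (0 : ℝ) < j by linarith) 2]
      _ = 3 / Real.sqrt c * (1 / Real.sqrt j) * (Real.sqrt c * ((j : ℝ) ^ 3 * Real.sqrt j)) := by
          field_simp
      _ ≤ 3 / Real.sqrt c * (1 / Real.sqrt j) * Real.sqrt (S j) :=
          mul_le_mul_of_nonneg_left h2 (by positivity)

end Pool.Agent.H53.PPC
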