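import Pool.Agent.H53.PPC.Growth
import Pool.Agent.H53.PPC.Cross

namespace Pool.Agent.H53.PPC

open Filter Topology Finset

/-- multipliers -/
def m (j : ℕ) : ℕ := 2 ^ j * 12 * (S (j + 1) + 1) ^ 4 * (S (j + 1)).factorial

/-- common differences -/
def d : ℕ → ℕ
  | 0 => 1
  | (j + 1) => d j * m j

lemma d_succ (j : ℕ) : d (j + 1) = d j * m j := rfl

lemma m_pos (j : ℕ) : 0 < m j := by unfold m; positivity

lemma d_pos (j : ℕ) : 0 < d j := by
  induction j with
  | zero => simp [d]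
  | succ j ih => rw [d_succ]; exact Nat.mul_pos ih (m_pos j)

lemma b_le_S (j : ℕ) : b j ≤ S (j + 1) := by rw [S_succ]; omega

lemma m_ge (j : ℕ) : 2 ^ j * 12 * (S (j + 1) + 1) ^ 4 ≤ m j := by
  unfold m
  exact Nat.le_mul_of_pos_right _ (Nat.factorial_pos _)

lemma two_le_m (j : ℕ) : 2 ≤ m j := by
  refine le_trans ?_ (m_ge j)
  have h1 : 1 ≤ 2 ^ j := Nat.one_le_two_pow
  have h2 : 1 ≤ (S (j + 1) + 1) ^ 4 := Nat.one_le_pow _ _ (by omega)
  nlinarith

lemma b_lt_m (j : ℕ) : b j < m j := by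
  refine lt_of_lt_of_le ?_ (m_ge j)
  have h1 : 1 ≤ 2 ^ j := Nat.one_le_two_pow
  have h2 : S (j + 1) + 1 ≤ (S (j + 1) + 1) ^ 4 := Nat.le_self_pow (by norm_num) _
  have h3 := b_le_S j
  nlinarith

lemma b_dvd_m (j : ℕ) : b j ∣ m j := by
  unfold m
  exact Dvd.dvd.mul_left (Nat.dvd_factorial (b_pos j) (b_le_S j)) _

lemma d_dvd_of_le {i j : ℕ} (h : i ≤ j) : d i ∣ d j := by
  induction j, h using Nat.le_induction with
  | base => exact dvd_rfl
  | succ j _ ih => rw [d_succ]; exact Dvd.dvd.mul_right ih _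

lemma bd_dvd_of_lt {i j : ℕ} (h : i < j) : b i * d i ∣ d j := by
  have h1 : b i * d i ∣ d (i + 1) := by
    rw [d_succ, mul_comm (d i)]
    exact Nat.mul_dvd_mul_right (b_dvd_m i) _
  exact dvd_trans h1 (d_dvd_of_le h)

/-- block index of `n` -/
def blk (n : ℕ) : ℕ := Nat.findGreatest (fun j => S j ≤ n) n

lemma S_blk_le (n : ℕ) : S (blk n) ≤ n := by
  unfold blk
  exact Nat.findGreatest_spec (P := fun j => S j ≤ n) (Nat.zero_le n) (by simp [S])

lemma lt_S_blk (n : ℕ) : n < S (blk n + 1) := by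
  by_contra hcon
  push Not at hcon
  have h1 : blk n + 1 ≤ n := le_trans (le_S _) hcon
  have h2 := Nat.le_findGreatest (P := fun j => S j ≤ n) h1 hcon
  unfold blk at h2
  omega

lemma blk_eq {n j : ℕ} (h1 : S j ≤ n) (h2 : n < S (j + 1)) : blk n = j := by
  have h3 := S_blk_le n
  have h4 := lt_S_blk n
  have h5 : j < blk n + 1 := S_strictMono.lt_iff_lt.mp (lt_of_le_of_lt h1 h4)
  have h6 : blk n < j + 1 := S_strictMono.lt_iff_lt.mp (lt_of_le_of_lt h3 h2)
  omega

lemma blk_add {j u : ℕ} (hu : u < b j) : blk (S j + u) = j :=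
  blk_eq (Nat.le_add_right _ _) (by rw [S_succ]; omega)

/-- the sequence (indexed from zero) -/
def a0 (n : ℕ) : ℕ := (n - S (blk n) + 1) * d (blk n)

lemma a0_add {j u : ℕ} (hu : u < b j) : a0 (S j + u) = (u + 1) * d j := by
  unfold a0
  rw [blk_add hu]
  congr 1
  omega

lemma a0_strictMono : StrictMono a0 := by
  apply strictMono_nat_of_lt_succ
  intro n
  have h1 := S_blk_le n
  have h2 := lt_S_blk n
  generalize blk n = j at h1 h2
  obtain ⟨u, rfl⟩ := Nat.exists_eq_add_of_le h1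
  have hu : u < b j := by rw [S_succ] at h2; omega
  rw [a0_add hu]
  have hd := d_pos j
  rcases Nat.lt_or_ge (u + 1) (b j) with h | h
  · rw [add_assoc, a0_add h]
    nlinarith
  · have hu' : u + 1 = b j := by omega
    have e : S j + u + 1 = S (j + 1) + 0 := by rw [S_succ]; omega
    rw [e, a0_add (b_pos _), d_succ, hu', zero_add, one_mul, mul_comm (d j)]
    exact Nat.mul_lt_mul_of_pos_right (b_lt_m j) hd

lemma a0_pos (n : ℕ) : 0 < a0 n := by
  unfold a0
  have := d_pos (blk n)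
  positivity

lemma two_pow_le_d (j : ℕ) : 2 ^ j ≤ d j := by
  induction j with
  | zero => simp [d]
  | succ j ih =>
    rw [d_succ, pow_succ]
    exact Nat.mul_le_mul ih (two_le_m j)

/-- terms of the series defining `alpha` -/
noncomputable def f (j : ℕ) : ℝ := 1 / ((b j : ℝ) * d j)

lemma f_nonneg (j : ℕ) : 0 ≤ f j := by unfold f; positivity

lemma f_le (j : ℕ) : f j ≤ 1 / (d j : ℝ) := by
  unfold f
  have h1 : (1 : ℝ) ≤ b j := by exact_mod_cast b_pos j
  have h2 : (0 : ℝ) < d j := by exact_mod_cast d_pos j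
  apply one_div_le_one_div_of_le h2
  nlinarith

lemma inv_d_add_le (j i : ℕ) : 1 / (d (i + j) : ℝ) ≤ (1 / (d j : ℝ)) * (1 / 2) ^ i := by
  induction i with
  | zero => simp
  | succ i ih =>
    have e : i + 1 + j = (i + j) + 1 := by ring
    rw [e, d_succ]
    have h1 : (0 : ℝ) < d (i + j) := by exact_mod_cast d_pos _
    have h2 : (2 : ℝ) ≤ m (i + j) := by exact_mod_cast two_le_m _
    push_cast
    calc 1 / ((d (i + j) : ℝ) * m (i + j)) = (1 / (d (i + j) : ℝ)) * (1 / m (i + j)) := by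
          field_simp
      _ ≤ (1 / (d (i + j) : ℝ)) * (1 / 2) := by
          apply mul_le_mul_of_nonneg_left _ (by positivity)
          exact one_div_le_one_div_of_le (by norm_num) h2
      _ ≤ ((1 / (d j : ℝ)) * (1 / 2) ^ i) * (1 / 2) := by
          apply mul_le_mul_of_nonneg_right ih (by norm_num)
      _ = (1 / (d j : ℝ)) * (1 / 2) ^ (i + 1) := by ring

lemma f_add_le (j i : ℕ) : f (i + j) ≤ (1 / (d j : ℝ)) * (1 / 2) ^ i :=
  le_trans (f_le _) (inv_d_add_le j i)

lemma summable_f : Summable f := by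
  apply Summable.of_nonneg_of_le f_nonneg (f := fun i => (1 / (d 0 : ℝ)) * (1 / 2) ^ i)
  · intro i
    exact f_add_le 0 i
  · exact (summable_geometric_two).mul_left _

/-- the exceptional real number -/
noncomputable def alpha : ℝ := ∑' j, f j

lemma tail_le (j : ℕ) : ∑' i, f (i + j) ≤ 2 / (d j : ℝ) := by
  have h1 : ∑' i, f (i + j) ≤ ∑' i : ℕ, (1 / (d j : ℝ)) * (1 / 2) ^ i := by
    apply Summable.tsum_le_tsum (f_add_le j)
    · exact (summable_nat_add_iff j).mpr summable_f
    · exact (summable_geometric_two).mul_left _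
  rw [tsum_mul_left, tsum_geometric_two] at h1
  calc ∑' i, f (i + j) ≤ 1 / (d j : ℝ) * 2 := h1
    _ = 2 / (d j : ℝ) := by ring

/-- error at block `j` -/
noncomputable def eps (j : ℕ) : ℝ := 2 * b j / m j

lemma eps_nonneg (j : ℕ) : 0 ≤ eps j := by unfold eps; positivity

/-- the points of the block -/
noncomputable def X (n : ℕ) : ℝ := a0 n * alpha

lemma X_block (j u : ℕ) (hu : u < b j) :
    distInt (X (S j + u) - ((u : ℝ) / b j + 1 / b j)) ≤ eps j := by
  have hb : (0 : ℝ) < b j := by exact_mod_cast b_pos j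
  have hd : (0 : ℝ) < d j := by exact_mod_cast d_pos j
  have hm : (0 : ℝ) < m j := by exact_mod_cast m_pos j
  have hsplit : alpha = ∑ i ∈ Finset.range j, f i + f j + ∑' i, f (i + (j + 1)) := by
    unfold alpha
    rw [← Summable.sum_add_tsum_nat_add (j + 1) summable_f, Finset.sum_range_succ]
  have hint : ∃ z : ℕ, (d j : ℝ) * ∑ i ∈ Finset.range j, f i = z := by
    refine ⟨∑ i ∈ Finset.range j, d j / (b i * d i), ?_⟩
    rw [Finset.mul_sum]
    push_cast
    apply Finset.sum_congr rfl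
    intro i hi
    have hdvd := bd_dvd_of_lt (Finset.mem_range.mp hi)
    rw [Nat.cast_div hdvd (by have := b_pos i; have := d_pos i; positivity)]
    unfold f
    push_cast
    ring
  obtain ⟨z, hz⟩ := hint
  have hX : X (S j + u) - ((u : ℝ) / b j + 1 / b j)
      = (u + 1) * d j * (∑' i, f (i + (j + 1))) + (((u + 1) * z : ℤ) : ℝ) := by
    unfold X
    rw [a0_add hu, hsplit]
    push_cast
    have e1 : ((u : ℝ) + 1) * d j * f j = (u : ℝ) / b j + 1 / b j := by
      unfold f; field_simp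
    calc ((u : ℝ) + 1) * d j * (∑ i ∈ Finset.range j, f i + f j + ∑' i, f (i + (j + 1)))
          - ((u : ℝ) / b j + 1 / b j)
        = (u + 1) * (d j * ∑ i ∈ Finset.range j, f i) + ((u : ℝ) + 1) * d j * f j
          + (u + 1) * d j * (∑' i, f (i + (j + 1))) - ((u : ℝ) / b j + 1 / b j) := by ring
      _ = _ := by rw [hz, e1]; ring
  rw [hX, distInt_add_int]
  refine le_trans (distInt_le_abs _) ?_
  have htail := tail_le (j + 1)
  have htail0 : 0 ≤ ∑' i, f (i + (j + 1)) := tsum_nonneg (fun i => f_nonneg _)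
  rw [abs_of_nonneg (by positivity)]
  have hu' : (u : ℝ) + 1 ≤ b j := by exact_mod_cast hu
  calc ((u : ℝ) + 1) * d j * (∑' i, f (i + (j + 1)))
      ≤ b j * d j * (2 / (d (j + 1) : ℝ)) := by
        apply mul_le_mul _ htail htail0 (by positivity)
        exact mul_le_mul_of_nonneg_right hu' hd.le
    _ = eps j := by
        unfold eps
        rw [d_succ]
        push_cast
        field_simp

lemma eps_bound (j : ℕ) : 2 * eps j * b j * (S (j + 1) + 1) ≤ (1 / 2) ^ j := by
  unfold eps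
  have hb : (0 : ℝ) < b j := by exact_mod_cast b_pos j
  have hm : (0 : ℝ) < m j := by exact_mod_cast m_pos j
  have hm' : (2 : ℝ) ^ j * 12 * (S (j + 1) + 1) ^ 4 ≤ m j := by exact_mod_cast m_ge j
  have hbS : (b j : ℝ) ≤ S (j + 1) + 1 := by
    have : (b j : ℝ) ≤ S (j + 1) := by exact_mod_cast b_le_S j
    linarith
  have hS0 : (0 : ℝ) ≤ S (j + 1) := by positivity
  generalize (S (j + 1) : ℝ) = s at *
  generalize (b j : ℝ) = β at *
  generalize (m j : ℝ) = μ at *
  rw [show 2 * (2 * β / μ) * β * (s + 1)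
    = 4 * β ^ 2 * (s + 1) / μ by ring]
  rw [div_le_iff₀ hm]
  have h2 : (0 : ℝ) < 2 ^ j := by positivity
  calc 4 * β ^ 2 * (s + 1) ≤ 4 * (s + 1) ^ 2 * (s + 1) := by
        apply mul_le_mul_of_nonneg_right _ (by linarith)
        apply mul_le_mul_of_nonneg_left _ (by norm_num)
        exact pow_le_pow_left₀ hb.le hbS 2
    _ = 4 * (s + 1) ^ 3 := by ring
    _ ≤ 12 * (s + 1) ^ 4 := by nlinarith [pow_pos (show (0 : ℝ) < s + 1 by linarith) 3]
    _ = (1 / 2) ^ j * (2 ^ j * 12 * (s + 1) ^ 4) := by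
        rw [one_div, inv_pow]; field_simp
    _ ≤ (1 / 2) ^ j * μ := mul_le_mul_of_nonneg_left hm' (by positivity)

end Pool.Agent.H53.PPC
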